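import Pool.Agent.LAWB.Pos
import Pool.Agent.LAW.ThmA

/-!
The graph side of Theorem A (MP_7b7176_co): if `NN` holds and all chains have at most three
circuits, then the structures on the inversion matrix satisfy the hypothesis `HypH` of Theorem A,
hence there are exactly five matching edges.
-/

set_option autoImplicit false
set_option linter.unusedSectionVars false

namespace Pool.GOD.PG

variable {V : Type*} [Fintype V] [DecidableEq V] {f g : Equiv.Perm V} {v : V}

lemma Cov.ne' {C : Type*} {κ μ : V → C} (h : Cov f g v κ μ) {x : V} (hx : x ≠ v) :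
    μ (g.symm x) ≠ μ x := by
  have h1 := h.ne x hx
  rcases h.eq x hx with ⟨h2, h3⟩ | ⟨h2, h3⟩
  · rw [h2, h3]
    exact h1
  · rw [h2, h3]
    exact h1.symm

lemma zm2 {a b a' b' : ZMod 2} (h : a = a') (h1 : b ≠ a) (h2 : b' ≠ a') : b = b' := by
  revert a b a' b'
  decide

/-- Two covers with two colours agree on the first circuit if they agree at `v`. -/
lemma cov2_eq (e : Equiv.Perm V) (he : Cyc e) (κ κ' : V → ZMod 2)
    (h : ∀ x, x ≠ v → κ (e.symm x) ≠ κ x) (h' : ∀ x, x ≠ v → κ' (e.symm x) ≠ κ' x)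
    (h1 : κ v = κ' v) (x : V) : κ x = κ' x := by
  refine he.induct (p := fun x => κ x = κ' x) (a := v) h1 ?_ x
  intro x hx
  by_cases h2 : e x = v
  · rw [h2]
    exact h1
  · have h3 := h _ h2
    have h4 := h' _ h2
    rw [Equiv.symm_apply_apply] at h3 h4
    exact zm2 hx h3.symm h4.symm

lemma Chn.cov2 {N : ℕ} {ρ σ : V → ℕ} (h : Chn f g v N ρ σ) :
    Cov f g v (fun x => (ρ x : ZMod 2)) (fun x => (σ x : ZMod 2)) := by
  refine ⟨?_, ?_, ?_, ?_⟩
  · rw [h.cov.vf]
  · rw [h.cov.vg]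
  · intro x hx
    have key : ∀ n : ℕ, (n : ZMod 2) ≠ ((n + 1 : ℕ) : ZMod 2) := by
      intro n
      push_cast
      generalize (n : ZMod 2) = a
      revert a
      decide
    rcases h.step x hx with h1 | h1
    · rw [h1]
      exact key _
    · rw [h1]
      exact (key _).symm
  · intro x hx
    rcases h.cov.eq x hx with ⟨h1, h2⟩ | ⟨h1, h2⟩
    · rw [h1, h2]
      exact Or.inl ⟨rfl, rfl⟩
    · rw [h1, h2]
      exact Or.inr ⟨rfl, rfl⟩

/-- Two chains at `v` of the same parity have the same parity everywhere. -/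
lemma Chn.parity {N N' : ℕ} {ρ σ ρ' σ' : V → ℕ} (hf : Cyc f) (hg : Cyc g)
    (h : Chn f g v N ρ σ) (h' : Chn f g v N' ρ' σ') (hN : (N : ZMod 2) = N') :
    (∀ x, (ρ x : ZMod 2) = ρ' x) ∧ ∀ x, (σ x : ZMod 2) = σ' x := by
  refine ⟨fun x => cov2_eq f hf (fun x => (ρ x : ZMod 2)) (fun x => (ρ' x : ZMod 2))
    h.cov2.ne h'.cov2.ne ?_ x,
    fun x => cov2_eq g hg (fun x => (σ x : ZMod 2)) (fun x => (σ' x : ZMod 2))
    (fun x hx => h.cov2.ne' hx) (fun x hx => h'.cov2.ne' hx) ?_ x⟩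
  · rw [h.r0, h'.r0]
  · rw [h.sN, h'.sN, hN]

/-- One half of the uniqueness: the classes of a chain are constant on the classes of another one
of the same parity. -/
lemma Chn.zero_of_zero {N N' : ℕ} {ρ σ ρ' σ' : V → ℕ} (hf : Cyc f) (hg : Cyc g)
    (h : Chn f g v N ρ σ) (h' : Chn f g v N' ρ' σ') (hN : (N : ZMod 2) = N') :
    (∀ x, ρ' x = 0 → ρ x = 0) ∧ ∀ x, σ' x = 0 → σ x = 0 := by
  obtain ⟨p1, p2⟩ := Chn.parity hf hg h h' hN
  have key := h'.fine (fun x => ρ x = 0) (fun x => σ x = 0) (by rw [h.cov.vf]) (by rw [h.cov.vg])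
    (by
      intro x hx
      have n1 : (ρ (f.symm x) : ZMod 2) ≠ ρ x := h.cov2.ne x hx
      refine ⟨fun e => ?_, fun e => ?_, fun e => ?_, fun e => ?_⟩
      · have e1 : (ρ (f.symm x) : ZMod 2) = σ x := by rw [p1, p2, e]
        rcases h.cov.eq x hx with ⟨h1, h2⟩ | ⟨h1, h2⟩
        · exact absurd (by rw [e1, h2]) n1
        · rw [h2]
      · have e1 : (ρ x : ZMod 2) = σ x := by rw [p1, p2, e]
        rcases h.cov.eq x hx with ⟨h1, h2⟩ | ⟨h1, h2⟩
        · rw [h2]
        · exact absurd (by rw [e1, h2]) n1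
      · have e1 : (ρ (f.symm x) : ZMod 2) = σ (g.symm x) := by rw [p1, p2, e]
        rcases h.cov.eq x hx with ⟨h1, h2⟩ | ⟨h1, h2⟩
        · rw [h1]
        · exact absurd (by rw [e1, h1]) n1
      · have e1 : (ρ x : ZMod 2) = σ (g.symm x) := by rw [p1, p2, e]
        rcases h.cov.eq x hx with ⟨h1, h2⟩ | ⟨h1, h2⟩
        · exact absurd (by rw [e1, h1]) n1
        · rw [h1])
  obtain ⟨k1, k2, k3⟩ := key
  constructor
  · intro x hx
    exact (k1 v x (by rw [hx, h'.r0])).1 h.r0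
  · intro x hx
    exact (k2 v x (by rw [hx, h'.r0])).1 h.r0

/-- Uniqueness of the chain with three circuits. -/
lemma Chn.unique2 {ρ σ ρ' σ' : V → ℕ} (hf : Cyc f) (hg : Cyc g)
    (h : Chn f g v 2 ρ σ) (h' : Chn f g v 2 ρ' σ') : (∀ x, ρ x = ρ' x) ∧ ∀ x, σ x = σ' x := by
  obtain ⟨p1, p2⟩ := Chn.parity hf hg h h' rfl
  obtain ⟨a1, a2⟩ := Chn.zero_of_zero hf hg h h' rfl
  obtain ⟨b1, b2⟩ := Chn.zero_of_zero hf hg h' h rfl
  have key : ∀ m n : ℕ, m ≤ 2 → n ≤ 2 → (m = 0 → n = 0) → (n = 0 → m = 0) →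
      (m : ZMod 2) = n → m = n := by
    intro m n hm hn h1 h2 h3
    have h4 := (ZMod.natCast_eq_natCast_iff' m n 2).1 h3
    omega
  exact ⟨fun x => key _ _ (h.rle x) (h'.rle x) (b1 x) (a1 x) (p1 x),
    fun x => key _ _ (h.sle x) (h'.sle x) (b2 x) (a2 x) (p2 x)⟩

/-- Existence of the two covers with two colours. -/
lemma exists_cov2 (hf : Cyc f) (hg : Cyc g) (hodd : Odd (Fintype.card V)) (v : V) (a b : ZMod 2) :
    ∃ κ μ : V → ZMod 2, Cov f g v κ μ ∧ κ v = a ∧ μ v = b := by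
  obtain ⟨pos, hp⟩ := hf.exists_isPos v
  obtain ⟨pos', hp'⟩ := hg.exists_isPos v
  set F : V → ZMod 2 := fun x => if x = v then 0 else 1 with hF
  have hv : F v = 0 := if_pos rfl
  have hne : ∀ x, x ≠ v → F x = 1 := fun x hx => if_neg hx
  have hsum : ∑ x, F x = 0 := by
    have h1 : ∑ x, F x + ∑ x : V, (if x = v then (1 : ZMod 2) else 0) = ∑ _x : V, (1 : ZMod 2) := by
      rw [← Finset.sum_add_distrib]
      apply Finset.sum_congr rfl
      intro x _
      by_cases hx : x = v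
      · rw [if_pos hx, hx, hv, zero_add]
      · rw [if_neg hx, hne x hx, add_zero]
    rw [Finset.sum_ite_eq' Finset.univ v, if_pos (Finset.mem_univ _), Finset.sum_const,
      Finset.card_univ, nsmul_eq_mul, mul_one] at h1
    have h2 : ((Fintype.card V : ℕ) : ZMod 2) = 1 := (ZMod.natCast_eq_one_iff_odd).2 hodd
    rw [h2] at h1
    simpa using h1
  have hst : ∀ (e : Equiv.Perm V) (p : V → ℕ), IsPos e v p → ∀ x,
      ps p F (e.symm x) = ps p F x + F x := by
    intro e p h x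
    have h1 := ps_step h F hsum (e.symm x)
    rw [Equiv.apply_symm_apply] at h1
    rw [h1, add_assoc, CharTwo.add_self_eq_zero, add_zero]
  refine ⟨fun x => a + ps pos F x, fun x => b + ps pos' F x, ⟨?_, ?_, ?_, ?_⟩, ?_, ?_⟩
  · rw [hst f pos hp, hv, add_zero]
  · rw [hst g pos' hp', hv, add_zero]
  · intro x hx
    rw [hst f pos hp, hne x hx]
    have : ∀ s t : ZMod 2, s + (t + 1) ≠ s + t := by decide
    exact this _ _
  · intro x hx
    rw [hst f pos hp, hst g pos' hp', hne x hx]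
    generalize ps pos F x = s
    generalize ps pos' F x = t
    clear hsum hst hv hne hF
    revert a b s t
    decide
  · change a + ps pos F v = a
    rw [ps_first hp, hv, add_zero]
  · change b + ps pos' F v = b
    rw [ps_first hp', hv, add_zero]

/-- For every letter there is a chain with an odd number `N + 1` of circuits. -/
lemma exists_even_chn (hN : NN f g) (hf : Cyc f) (hg : Cyc g) (hodd : Odd (Fintype.card V))
    (hc : 2 ≤ Fintype.card V) (v : V) : ∃ (N : ℕ) (ρ σ : V → ℕ), Chn f g v N ρ σ ∧ Even N := by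
  obtain ⟨κ, μ, hC, hκ, hμ⟩ := exists_cov2 hf hg hodd v 0 0
  obtain ⟨N, ρ, σ, φ, h, h1, h2⟩ := exists_chn hN hf hg hc hC
  refine ⟨N, ρ, σ, h, ?_⟩
  have p1 : ∀ x, κ x = (ρ x : ZMod 2) := fun x =>
    cov2_eq f hf κ (fun x => (ρ x : ZMod 2)) hC.ne h.cov2.ne (by rw [hκ, h.r0]; rfl) x
  have hu : g.symm v ≠ v := by
    intro h3
    rw [Equiv.symm_apply_eq] at h3
    exact hg.ne hc v h3.symm
  have e1 : μ (g.symm v) = (σ (g.symm v) : ZMod 2) := by
    rcases h.cov.mem hu with h3 | h3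
    · rw [h2, h3, ← h1, p1]
    · rw [h2, h3, ← h1, p1]
  rw [hC.vg, hμ, h.cov.vg, h.sN] at e1
  exact (ZMod.natCast_eq_zero_iff_even).1 e1.symm

/-- The boundary of a set of edges of one circuit is even. -/
lemma even_bd (e : Equiv.Perm V) (A : Finset V) : Even (bd e A).card := by
  have e1 : ∀ x, (if x ∈ bd e A then (1 : ZMod 2) else 0) =
      (if x ∈ A then 1 else 0) + (if e.symm x ∈ A then 1 else 0) := by
    intro x
    by_cases a1 : x ∈ A <;> by_cases a2 : e.symm x ∈ A <;>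
      simp [mem_bd, a1, a2, CharTwo.add_self_eq_zero]
  have e2 : ((bd e A).card : ZMod 2) = ∑ x, if x ∈ bd e A then (1 : ZMod 2) else 0 := by
    rw [Finset.sum_boole, Finset.filter_univ_mem]
  have e3 : ∑ x, (if e.symm x ∈ A then (1 : ZMod 2) else 0) = ∑ x, if x ∈ A then 1 else 0 :=
    Equiv.sum_comp e.symm (fun x => if x ∈ A then (1 : ZMod 2) else 0)
  have e4 : ((bd e A).card : ZMod 2) = 0 := by
    rw [e2, Finset.sum_congr rfl (fun x _ => e1 x), Finset.sum_add_distrib, e3]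
    exact CharTwo.add_self_eq_zero _
  exact (ZMod.natCast_eq_zero_iff_even).mp e4

/-- The first class of letters of a chain with three circuits: between the first two circuits. -/
def cls (f : Equiv.Perm V) (ρ : V → ℕ) : Finset V := bd f (Finset.univ.filter (fun x => ρ x = 0))

lemma mem_cls {ρ : V → ℕ} {x : V} : x ∈ cls f ρ ↔ ¬ (ρ x = 0 ↔ ρ (f.symm x) = 0) := by
  rw [cls, mem_bd]
  simp

lemma Chn.cls_in {ρ σ : V → ℕ} (h : Chn f g v 2 ρ σ) {x : V} (hx : x ∈ cls f ρ) :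
    (ρ (f.symm x) = 0 ∧ ρ x = 1) ∨ (ρ (f.symm x) = 1 ∧ ρ x = 0) := by
  rw [mem_cls] at hx
  have h0 : x ≠ v := by
    rintro rfl
    exact hx (by rw [h.cov.vf])
  have h1 := h.step x h0
  have h2 := h.rle x
  have h3 := h.rle (f.symm x)
  omega

lemma Chn.cls_out {ρ σ : V → ℕ} (h : Chn f g v 2 ρ σ) {x : V} (h0 : x ≠ v) (hx : x ∉ cls f ρ) :
    (ρ (f.symm x) = 1 ∧ ρ x = 2) ∨ (ρ (f.symm x) = 2 ∧ ρ x = 1) := by
  rw [mem_cls] at hx
  have h1 := h.step x h0
  have h2 := h.rle x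
  have h3 := h.rle (f.symm x)
  omega

lemma Chn.v_notMem {ρ σ : V → ℕ} (h : Chn f g v 2 ρ σ) : v ∉ cls f ρ := by
  rw [mem_cls, h.cov.vf]
  simp

lemma Chn.fv_mem {ρ σ : V → ℕ} (h : Chn f g v 2 ρ σ) (hf : Cyc f) (hc : 2 ≤ Fintype.card V) :
    f v ∈ cls f ρ := by
  rw [mem_cls, Equiv.symm_apply_apply, h.r0]
  have h1 := h.step (f v) (hf.ne hc v)
  rw [Equiv.symm_apply_apply, h.r0] at h1
  omega

lemma Chn.gv_notMem {ρ σ : V → ℕ} (h : Chn f g v 2 ρ σ) (hg : Cyc g) (hc : 2 ≤ Fintype.card V) :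
    g v ∉ cls f ρ := by
  intro h1
  have h2 := h.cls_in h1
  have h3 := h.cov.eq (g v) (hg.ne hc v)
  rw [Equiv.symm_apply_apply, h.sN] at h3
  omega

lemma w2_exun {a b c c' s t : ZMod 2 × ZMod 2} (hst : s ≠ t)
    (h1 : c + a = 0 ∨ c + a = s) (h2 : c' + a = 0 ∨ c' + a = s)
    (h3 : c + b = 0 ∨ c + b = t) (h4 : c' + b = 0 ∨ c' + b = t) : c' = c := by
  have k1 : ∀ c c' a s : ZMod 2 × ZMod 2, (c + a = 0 ∨ c + a = s) → (c' + a = 0 ∨ c' + a = s) →
      c + c' = 0 ∨ c + c' = s := by decide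
  rcases k1 c c' a s h1 h2 with h5 | h5
  · exact (w2_eq h5).symm
  · rcases k1 c c' b t h3 h4 with h6 | h6
    · exact (w2_eq h6).symm
    · exact absurd (h5.symm.trans h6) hst

/-- The hypothesis of Theorem A. -/
theorem hypH (hf : Cyc f) (hg : Cyc g) (hodd : Odd (Fintype.card V)) (hc : 2 ≤ Fintype.card V)
    (hN : NN f g) (hT : ∀ v N ρ σ, Chn f g v N ρ σ → N ≤ 2) :
    ∃ (A : V → V → ZMod 2) (K : V → Finset V), (∀ x y, A x y = A y x) ∧ LAW.HypH A K := by
  classical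
  obtain ⟨v0⟩ : Nonempty V := Fintype.card_pos_iff.1 (by omega)
  obtain ⟨pos, hp⟩ := hf.exists_isPos v0
  obtain ⟨pos', hp'⟩ := hg.exists_isPos v0
  have hch : ∀ v, ∃ ρσ : (V → ℕ) × (V → ℕ), Chn f g v 2 ρσ.1 ρσ.2 := by
    intro v
    obtain ⟨N, ρ, σ, h, hN2⟩ := exists_even_chn hN hf hg hodd hc v
    have h1 := hT v N ρ σ h
    have h2 := h.pos
    have h3 : N = 2 := by
      obtain ⟨k, hk⟩ := hN2
      omega
    subst h3
    exact ⟨(ρ, σ), h⟩
  choose R hR using hch
  refine ⟨inv pos pos', fun v => cls f (R v).1, inv_symm hp.inj hp'.inj, ?_⟩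
  refine ⟨fun v => (hR v).v_notMem, fun v => ⟨f v, (hR v).fv_mem hf hc⟩,
    fun v => ⟨g v, hg.ne hc v, (hR v).gv_notMem hg hc⟩, fun v => even_bd f _, ?_, ?_⟩
  · intro v F c hS
    have hC := cov_of_str hp hp' hS
    obtain ⟨N, ρ, σ, φ, h, h1, h2⟩ := exists_chn hN hf hg hc hC
    have hF : ∀ x, F x = φ (ρ (f.symm x)) + φ (ρ x) := by
      intro x
      rw [← h1, ← h1, ps_symm hp F hS.2.1, add_comm, ← add_assoc, w2, zero_add]
    have h3 := hT v N ρ σ h
    have h4 := h.pos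
    have h5 : N = 1 ∨ N = 2 := by omega
    rcases h5 with rfl | rfl
    · have key : ∀ x, x ≠ v → F x = φ 0 + φ 1 := by
        intro x hx
        have a1 := h.step x hx
        have a2 := h.rle x
        have a3 := h.rle (f.symm x)
        have a4 : (ρ (f.symm x) = 0 ∧ ρ x = 1) ∨ (ρ (f.symm x) = 1 ∧ ρ x = 0) := by omega
        rw [hF]
        rcases a4 with ⟨a5, a6⟩ | ⟨a5, a6⟩
        · rw [a5, a6]
        · rw [a5, a6, add_comm]
      refine ⟨fun x hx y hy => ?_, fun x hx _ y hy _ => ?_⟩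
      · rw [key x (fun e => (hR v).v_notMem (e ▸ hx)), key y (fun e => (hR v).v_notMem (e ▸ hy))]
      · rw [key x hx, key y hy]
    · obtain ⟨u1, -⟩ := Chn.unique2 hf hg (hR v) h
      have k1 : ∀ x ∈ cls f (R v).1, F x = φ 0 + φ 1 := by
        intro x hx
        have a4 := (hR v).cls_in hx
        rw [u1, u1] at a4
        rw [hF]
        rcases a4 with ⟨a5, a6⟩ | ⟨a5, a6⟩
        · rw [a5, a6]
        · rw [a5, a6, add_comm]
      have k2 : ∀ x, x ≠ v → x ∉ cls f (R v).1 → F x = φ 1 + φ 2 := by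
        intro x hx hx'
        have a4 := (hR v).cls_out hx hx'
        rw [u1, u1] at a4
        rw [hF]
        rcases a4 with ⟨a5, a6⟩ | ⟨a5, a6⟩
        · rw [a5, a6]
        · rw [a5, a6, add_comm]
      refine ⟨fun x hx y hy => ?_, fun x hx hx' y hy hy' => ?_⟩
      · rw [k1 x hx, k1 y hy]
      · rw [k2 x hx hx', k2 y hy hy']
  · intro v s t hs ht hst
    have h := hR v
    let φ : ℕ → ZMod 2 × ZMod 2 := fun n => if n = 0 then s else if n = 1 then 0 else t
    have f0 : φ 0 = s := rfl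
    have f1 : φ 1 = 0 := rfl
    have f2 : φ 2 = t := rfl
    have hC : Cov f g v (fun x => φ ((R v).1 x)) (fun x => φ ((R v).2 x)) := by
      refine ⟨?_, ?_, ?_, ?_⟩
      · rw [h.cov.vf]
      · rw [h.cov.vg]
      · intro x hx
        by_cases hx' : x ∈ cls f (R v).1
        · rcases h.cls_in hx' with ⟨a1, a2⟩ | ⟨a1, a2⟩
          · rw [a1, a2, f0, f1]
            exact hs
          · rw [a1, a2, f0, f1]
            exact hs.symm
        · rcases h.cls_out hx hx' with ⟨a1, a2⟩ | ⟨a1, a2⟩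
          · rw [a1, a2, f2, f1]
            exact ht.symm
          · rw [a1, a2, f2, f1]
            exact ht
      · intro x hx
        rcases h.cov.eq x hx with ⟨a1, a2⟩ | ⟨a1, a2⟩
        · rw [a1, a2]
          exact Or.inl ⟨rfl, rfl⟩
        · rw [a1, a2]
          exact Or.inr ⟨rfl, rfl⟩
    have hS := str_of_cov hp hp' hf hg hC
    have hfun : (fun x => φ ((R v).1 (f.symm x)) + φ ((R v).1 x)) =
        fun x => if x = v then 0 else if x ∈ cls f (R v).1 then s else t := by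
      funext x
      by_cases hx : x = v
      · rw [if_pos hx, hx, h.cov.vf, w2]
      · rw [if_neg hx]
        by_cases hx' : x ∈ cls f (R v).1
        · rw [if_pos hx']
          rcases h.cls_in hx' with ⟨a1, a2⟩ | ⟨a1, a2⟩
          · rw [a1, a2, f0, f1, add_zero]
          · rw [a1, a2, f0, f1, zero_add]
        · rw [if_neg hx']
          rcases h.cls_out hx hx' with ⟨a1, a2⟩ | ⟨a1, a2⟩
          · rw [a1, a2, f2, f1, zero_add]
          · rw [a1, a2, f2, f1, add_zero]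
    rw [hfun] at hS
    refine ⟨_, hS, ?_⟩
    intro c' hS'
    have m1 : f v ∈ Finset.univ.erase v := by simp [hf.ne hc v]
    have m2 : g v ∈ Finset.univ.erase v := by simp [hg.ne hc v]
    have q1 := hS.2.2 _ m1
    have q2 := hS'.2.2 _ m1
    have q3 := hS.2.2 _ m2
    have q4 := hS'.2.2 _ m2
    beta_reduce at q1 q2 q3 q4
    rw [if_neg (hf.ne hc v), if_pos (h.fv_mem hf hc)] at q1 q2
    rw [if_neg (hg.ne hc v), if_neg (h.gv_notMem hg hc)] at q3 q4
    exact w2_exun hst q1 q2 q3 q4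

/-- **Theorem A for permutation graphs**: if nothing is removable and all chains have at most three
circuits, then there are exactly five matching edges. -/
theorem five_of_chn (hf : Cyc f) (hg : Cyc g) (hodd : Odd (Fintype.card V))
    (hc : 2 ≤ Fintype.card V) (hN : NN f g) (hT : ∀ v N ρ σ, Chn f g v N ρ σ → N ≤ 2) :
    Fintype.card V = 5 := by
  obtain ⟨A, K, hA, hH⟩ := hypH hf hg hodd hc hN hT
  exact LAW.thmA A hA K hH hodd

end Pool.GOD.PG
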