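import Pool.Agent.LAWB.Cov

/-!
T1 in the compact model of permutation graphs (MP_7b7176_co): under `NN` every cover of `w - 2v` is
a chain.
-/

set_option autoImplicit false
set_option linter.unusedSectionVars false

namespace Pool.GOD.PG

/-- A connected graph in which every vertex other than `a, b` lies on all walks from `a` to `b` is a
path. -/
lemma path_of_sep {C : Type*} (Γ : SimpleGraph C) (a b : C) (hr : ∀ c, Γ.Reachable a c)
    (hs : ∀ c, c ≠ a → c ≠ b → ∀ p : Γ.Walk a b, c ∈ p.support) :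
    Γ.dist a a = 0 ∧ Function.Injective (Γ.dist a) ∧ (∀ c, Γ.dist a c ≤ Γ.dist a b) ∧
      ∀ c d, Γ.Adj c d → Γ.dist a c = Γ.dist a d + 1 ∨ Γ.dist a d = Γ.dist a c + 1 := by
  classical
  obtain ⟨p, hp⟩ := (hr b).exists_walk_length_eq_dist
  have hmem : ∀ c, c ∈ p.support := by
    intro c
    by_cases h1 : c = a
    · subst h1
      exact p.start_mem_support
    · by_cases h2 : c = b
      · subst h2
        exact p.end_mem_support
      · exact hs c h1 h2 p
  have key : ∀ c, Γ.dist a c = (p.takeUntil c (hmem c)).length := by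
    intro c
    apply le_antisymm (Γ.dist_le _)
    obtain ⟨q, hq⟩ := (hr c).exists_walk_length_eq_dist
    have h1 := Γ.dist_le (q.append (p.dropUntil c (hmem c)))
    have h2 := congrArg SimpleGraph.Walk.length (p.take_spec (hmem c))
    rw [SimpleGraph.Walk.length_append] at h1 h2
    omega
  have hv : ∀ c, p.getVert (Γ.dist a c) = c := by
    intro c
    rw [key c]
    exact p.getVert_length_takeUntil (hmem c)
  have hinj : Function.Injective (Γ.dist a) := by
    intro c d hcd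
    rw [← hv c, ← hv d, hcd]
  have hle : ∀ c, Γ.dist a c ≤ Γ.dist a b := by
    intro c
    rw [key c, ← hp]
    exact p.length_takeUntil_le_length (hmem c)
  have hadj : ∀ c d, Γ.Adj c d → Γ.dist a d ≤ Γ.dist a c + 1 := by
    intro c d hcd
    obtain ⟨q, hq⟩ := (hr c).exists_walk_length_eq_dist
    have h1 := Γ.dist_le (q.concat hcd)
    rw [SimpleGraph.Walk.length_concat] at h1
    omega
  refine ⟨SimpleGraph.dist_self, hinj, hle, ?_⟩
  intro c d hcd
  have h1 := hadj c d hcd
  have h2 := hadj d c hcd.symm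
  have h3 : Γ.dist a c ≠ Γ.dist a d := fun h => hcd.ne (hinj h)
  omega

variable {V : Type*} [Fintype V] [DecidableEq V] {f g : Equiv.Perm V}
variable {C : Type*} {v : V} {κ μ : V → C}

/-- The intersection graph of the colour classes. -/
def igr (h : Cov f g v κ μ) : SimpleGraph C where
  Adj c d := ∃ x, x ≠ v ∧ ((κ (f.symm x) = c ∧ κ x = d) ∨ (κ (f.symm x) = d ∧ κ x = c))
  symm := ⟨by
    rintro c d ⟨x, hx, h1⟩
    exact ⟨x, hx, h1.symm⟩⟩
  loopless := ⟨by
    rintro c ⟨x, hx, h1⟩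
    rcases h1 with h1 | h1
    · exact h.ne x hx (h1.1.trans h1.2.symm)
    · exact h.ne x hx (h1.1.trans h1.2.symm)⟩

lemma Cov.reach (h : Cov f g v κ μ) (hf : Cyc f) (x : V) : (igr h).Reachable (κ v) (κ x) := by
  refine hf.induct (p := fun x => (igr h).Reachable (κ v) (κ x)) (a := v)
    (SimpleGraph.Reachable.refl _) ?_ x
  intro x hx
  by_cases h1 : f x = v
  · rw [h1]
  · refine hx.trans (SimpleGraph.Adj.reachable ⟨f x, h1, Or.inl ⟨?_, rfl⟩⟩)
    rw [Equiv.symm_apply_apply]

/-- Under `NN` every colour class lies on all walks in the intersection graph between the two ends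
of `v`. -/
lemma Cov.mem_walk (h : Cov f g v κ μ) (hF : Fine f g v κ μ) (hN : NN f g) {c : C}
    (h3 : ∃ x, κ x = c) (h1 : c ≠ κ v) (h2 : c ≠ μ v) (p : (igr h).Walk (κ v) (μ v)) :
    c ∈ p.support := by
  obtain ⟨s, hs, hs'⟩ := h.sep hF hN h1.symm h2.symm h3
  have key : ∀ (a b : C) (p : (igr h).Walk a b), c ∉ p.support → (s a ↔ s b) := by
    intro a b p
    induction p with
    | nil => exact fun _ => Iff.rfl
    | @cons a m b hadj q ih =>
      intro hc
      rw [SimpleGraph.Walk.support_cons, List.mem_cons, not_or] at hc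
      have e1 := ih hc.2
      rw [← e1]
      obtain ⟨x, hx, h4⟩ := hadj
      have hm : c ≠ m := fun e => hc.2 (e ▸ q.start_mem_support)
      rcases h4 with ⟨h5, h6⟩ | ⟨h5, h6⟩
      · have := hs' x hx (by rw [h6]; exact fun e => hm e.symm) (by rw [h5]; exact fun e => hc.1 e.symm)
        rwa [h5, h6] at this
      · have := hs' x hx (by rw [h6]; exact fun e => hc.1 e.symm) (by rw [h5]; exact fun e => hm e.symm)
        rw [h5, h6] at this
        exact this.symm
  by_contra hc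
  exact hs (key _ _ p hc)

/-- Links: two edges which are consecutive on a circuit of the cover. -/
inductive Lk (f g : Equiv.Perm V) (v : V) (κ μ : V → C) : V ⊕ V → V ⊕ V → Prop
  | vf : Lk f g v κ μ (Sum.inl (f.symm v)) (Sum.inl v)
  | vg : Lk f g v κ μ (Sum.inr (g.symm v)) (Sum.inr v)
  | s1 (x : V) (hx : x ≠ v) (h : κ (f.symm x) = μ x) :
      Lk f g v κ μ (Sum.inl (f.symm x)) (Sum.inr x)
  | s2 (x : V) (hx : x ≠ v) (h : κ x = μ x) : Lk f g v κ μ (Sum.inl x) (Sum.inr x)
  | s3 (x : V) (hx : x ≠ v) (h : κ (f.symm x) = μ (g.symm x)) :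
      Lk f g v κ μ (Sum.inl (f.symm x)) (Sum.inr (g.symm x))
  | s4 (x : V) (hx : x ≠ v) (h : κ x = μ (g.symm x)) :
      Lk f g v κ μ (Sum.inl x) (Sum.inr (g.symm x))

/-- The colour of a circuit. -/
def lcol (h : Cov f g v κ μ) : Quot (Lk f g v κ μ) → C :=
  Quot.lift (Sum.elim κ μ) (by
    rintro a b hab
    cases hab with
    | vf => exact h.vf
    | vg => exact h.vg
    | s1 x hx e => exact e
    | s2 x hx e => exact e
    | s3 x hx e => exact e
    | s4 x hx e => exact e)

/-- The finest cover. -/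
lemma Cov.fine_cov (h : Cov f g v κ μ) :
    Cov f g v (fun x => Quot.mk (Lk f g v κ μ) (Sum.inl x))
      (fun x => Quot.mk (Lk f g v κ μ) (Sum.inr x)) := by
  refine ⟨Quot.sound Lk.vf, Quot.sound Lk.vg, ?_, ?_⟩
  · intro x hx e
    exact h.ne x hx (congrArg (lcol h) e)
  · intro x hx
    rcases h.eq x hx with ⟨h1, h2⟩ | ⟨h1, h2⟩
    · exact Or.inl ⟨(Quot.sound (Lk.s3 x hx h1.symm)).symm, (Quot.sound (Lk.s2 x hx h2.symm)).symm⟩
    · exact Or.inr ⟨(Quot.sound (Lk.s4 x hx h1.symm)).symm, (Quot.sound (Lk.s1 x hx h2.symm)).symm⟩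

lemma Cov.fine_fine (_h : Cov f g v κ μ) :
    Fine f g v (fun x => Quot.mk (Lk f g v κ μ) (Sum.inl x))
      (fun x => Quot.mk (Lk f g v κ μ) (Sum.inr x)) := by
  intro p q hp hq hx
  let P : Quot (Lk f g v κ μ) → Prop := Quot.lift (Sum.elim p q) (by
    rintro a b hab
    cases hab with
    | vf => exact propext hp
    | vg => exact propext hq
    | s1 x hx' e => exact propext ((hx x hx').1 (Quot.sound (Lk.s1 x hx' e)))
    | s2 x hx' e => exact propext ((hx x hx').2.1 (Quot.sound (Lk.s2 x hx' e)))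
    | s3 x hx' e => exact propext ((hx x hx').2.2.1 (Quot.sound (Lk.s3 x hx' e)))
    | s4 x hx' e => exact propext ((hx x hx').2.2.2 (Quot.sound (Lk.s4 x hx' e))))
  refine ⟨fun x y e => ?_, fun x y e => ?_, fun x y e => ?_⟩
  · exact iff_of_eq (congrArg P e)
  · exact iff_of_eq (congrArg P e)
  · exact iff_of_eq (congrArg P e)

/-- **T1**: under `NN` every cover of `w - 2v` comes from a chain of circuits. -/
theorem exists_chn (hN : NN f g) (hf : Cyc f) (hg : Cyc g) (hc : 2 ≤ Fintype.card V)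
    (h : Cov f g v κ μ) : ∃ (N : ℕ) (ρ σ : V → ℕ) (φ : ℕ → C), Chn f g v N ρ σ ∧
      (∀ x, κ x = φ (ρ x)) ∧ ∀ x, μ x = φ (σ x) := by
  classical
  have hC := h.fine_cov
  have hF := h.fine_fine
  set κ' : V → Quot (Lk f g v κ μ) := fun x => Quot.mk (Lk f g v κ μ) (Sum.inl x) with hκ'
  set μ' : V → Quot (Lk f g v κ μ) := fun x => Quot.mk (Lk f g v κ μ) (Sum.inr x) with hμ'
  have hused : ∀ c : Quot (Lk f g v κ μ), ∃ x, κ' x = c := by
    intro c
    obtain ⟨a, rfl⟩ := Quot.exists_rep c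
    rcases a with x | x
    · exact ⟨x, rfl⟩
    · exact hC.used hg hc x
  have hr : ∀ c, (igr hC).Reachable (κ' v) c := by
    intro c
    obtain ⟨x, rfl⟩ := hused c
    exact hC.reach hf x
  obtain ⟨k1, k2, k3, k4⟩ := path_of_sep (igr hC) (κ' v) (μ' v) hr
    (fun c h1 h2 p => hC.mem_walk hF hN (hused c) h1 h2 p)
  set L : Quot (Lk f g v κ μ) → ℕ := (igr hC).dist (κ' v) with hL
  have hstep : ∀ x, x ≠ v → L (κ' x) = L (κ' (f.symm x)) + 1 ∨
      L (κ' (f.symm x)) = L (κ' x) + 1 := by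
    intro x hx
    exact (k4 _ _ ⟨x, hx, Or.inl ⟨rfl, rfl⟩⟩).symm
  have hpos : 1 ≤ L (μ' v) := by
    have h1 : f v ≠ v := hf.ne hc v
    have h2 := hstep _ h1
    have h3 := k3 (κ' (f v))
    have h4 := k3 (κ' (f.symm (f v)))
    omega
  let φ : ℕ → C := fun i => if hi : ∃ c, L c = i then lcol h hi.choose else κ v
  have hφ : ∀ c, φ (L c) = lcol h c := by
    intro c
    have hi : ∃ d, L d = L c := ⟨c, rfl⟩
    have e : φ (L c) = lcol h hi.choose := dif_pos hi
    rw [e, k2 hi.choose_spec]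
  refine ⟨L (μ' v), fun x => L (κ' x), fun x => L (μ' x), φ, ?_, ?_, ?_⟩
  · refine ⟨⟨?_, ?_, ?_, ?_⟩, ?_, hpos, k1, rfl, fun x => k3 _, fun x => k3 _, hstep⟩
    · exact congrArg L hC.vf
    · exact congrArg L hC.vg
    · intro x hx e
      exact hC.ne x hx (k2 e)
    · intro x hx
      rcases hC.eq x hx with ⟨h1, h2⟩ | ⟨h1, h2⟩
      · exact Or.inl ⟨congrArg L h1, congrArg L h2⟩
      · exact Or.inr ⟨congrArg L h1, congrArg L h2⟩
    · intro p q hp hq hx
      obtain ⟨m1, m2, m3⟩ := hF p q hp hq (fun x hx' => ⟨fun e => (hx x hx').1 (congrArg L e),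
        fun e => (hx x hx').2.1 (congrArg L e), fun e => (hx x hx').2.2.1 (congrArg L e),
        fun e => (hx x hx').2.2.2 (congrArg L e)⟩)
      exact ⟨fun x y e => m1 x y (k2 e), fun x y e => m2 x y (k2 e), fun x y e => m3 x y (k2 e)⟩
  · intro x
    exact (hφ (κ' x)).symm
  · intro x
    exact (hφ (μ' x)).symm

end Pool.GOD.PG
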