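import Pool.Agent.GOD.PG

/-!
Covers of `w - 2v` in the compact model of permutation graphs (MP_7b7176_co), and T1: under `NN`
every cover is a chain.

`κ x` is the colour of the `f`-edge `x → f x`, `μ x` is the colour of the `g`-edge `x → g x`; the
letter `v` is deleted.
-/

set_option autoImplicit false
set_option linter.unusedSectionVars false

namespace Pool.GOD.PG

variable {V : Type*} [Fintype V] [DecidableEq V] {f g : Equiv.Perm V}

/-- A cover of `w - 2v` by even subgraphs, indexed by `C`. -/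
structure Cov {C : Type*} (f g : Equiv.Perm V) (v : V) (κ μ : V → C) : Prop where
  vf : κ (f.symm v) = κ v
  vg : μ (g.symm v) = μ v
  ne : ∀ x, x ≠ v → κ (f.symm x) ≠ κ x
  eq : ∀ x, x ≠ v → (μ (g.symm x) = κ (f.symm x) ∧ μ x = κ x) ∨
    (μ (g.symm x) = κ x ∧ μ x = κ (f.symm x))

/-- Every colour class is connected: every pair `p, q` of predicates on the `f`-edges and on the
`g`-edges which is constant on the strands is constant on the colour classes. -/
def Fine {C : Type*} (f g : Equiv.Perm V) (v : V) (κ μ : V → C) : Prop :=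
  ∀ p q : V → Prop, (p (f.symm v) ↔ p v) → (q (g.symm v) ↔ q v) →
    (∀ x, x ≠ v → (κ (f.symm x) = μ x → (p (f.symm x) ↔ q x)) ∧
      (κ x = μ x → (p x ↔ q x)) ∧
      (κ (f.symm x) = μ (g.symm x) → (p (f.symm x) ↔ q (g.symm x))) ∧
      (κ x = μ (g.symm x) → (p x ↔ q (g.symm x)))) →
    (∀ x y, κ x = κ y → (p x ↔ p y)) ∧ (∀ x y, κ x = μ y → (p x ↔ q y)) ∧
      (∀ x y, μ x = μ y → (q x ↔ q y))

/-- A chain of `N + 1` circuits covering `w - 2v`: the circuit number `i` is the colour class `i`;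
it starts on the first circuit of the graph and ends on the second circuit of the graph. -/
structure Chn (f g : Equiv.Perm V) (v : V) (N : ℕ) (ρ σ : V → ℕ) : Prop where
  cov : Cov f g v ρ σ
  fine : Fine f g v ρ σ
  pos : 1 ≤ N
  r0 : ρ v = 0
  sN : σ v = N
  rle : ∀ x, ρ x ≤ N
  sle : ∀ x, σ x ≤ N
  step : ∀ x, x ≠ v → ρ x = ρ (f.symm x) + 1 ∨ ρ (f.symm x) = ρ x + 1

section cov

variable {C : Type*} {v : V} {κ μ : V → C}

lemma Cov.mem (h : Cov f g v κ μ) {x : V} (hx : x ≠ v) : μ x = κ x ∨ μ x = κ (f.symm x) := by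
  rcases h.eq x hx with h1 | h1
  · exact Or.inl h1.2
  · exact Or.inr h1.2

lemma Cov.mem' (h : Cov f g v κ μ) {x : V} (hx : x ≠ v) : κ x = μ x ∨ κ x = μ (g.symm x) := by
  rcases h.eq x hx with h1 | h1
  · exact Or.inl h1.2.symm
  · exact Or.inr h1.1.symm

/-- Every colour of a `g`-edge is the colour of an `f`-edge. -/
lemma Cov.used (h : Cov f g v κ μ) (hg : Cyc g) (hc : 2 ≤ Fintype.card V) (x : V) :
    ∃ y, κ y = μ x := by
  have key : ∀ x, x ≠ v → ∃ y, κ y = μ x := by
    intro x hx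
    rcases h.mem hx with h1 | h1
    · exact ⟨x, h1.symm⟩
    · exact ⟨f.symm x, h1.symm⟩
  by_cases hx : x = v
  · subst hx
    have h1 : g.symm x ≠ x := by
      intro h2
      rw [Equiv.symm_apply_eq] at h2
      exact hg.ne hc x h2.symm
    obtain ⟨y, hy⟩ := key _ h1
    exact ⟨y, by rw [hy, h.vg]⟩
  · exact key x hx

open Classical in
/-- The colour class `c` is an even subgraph. -/
lemma Cov.bd (h : Cov f g v κ μ) (c : C) :
    bd f (Finset.univ.filter (fun x => κ x = c)) =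
      Pool.GOD.PG.bd g (Finset.univ.filter (fun x => μ x = c)) := by
  ext x
  rw [mem_bd, mem_bd]
  simp only [Finset.mem_filter, Finset.mem_univ, true_and]
  by_cases hx : x = v
  · subst hx
    rw [h.vf, h.vg]
    simp
  · rcases h.eq x hx with ⟨h1, h2⟩ | ⟨h1, h2⟩
    · rw [h1, h2]
    · rw [h1, h2]
      tauto

open Classical in
/-- The class `c`, which does not contain `v`, is an alternating set. -/
lemma Cov.alt (h : Cov f g v κ μ) {c : C} (h1 : κ v ≠ c) (h2 : μ v ≠ c) (h3 : ∃ x, κ x = c) :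
    Alt f g (Finset.univ.filter (fun x => κ x = c)) (Finset.univ.filter (fun x => μ x = c)) := by
  refine ⟨?_, ?_, ?_, h.bd c⟩
  · obtain ⟨x, hx⟩ := h3
    exact ⟨x, by simpa using hx⟩
  · intro x hx hfx
    simp only [Finset.mem_filter, Finset.mem_univ, true_and] at hx hfx
    by_cases h4 : f x = v
    · rw [h4] at hfx
      exact h1 hfx
    · apply h.ne _ h4
      rw [Equiv.symm_apply_apply, hx, hfx]
  · intro x hx hgx
    simp only [Finset.mem_filter, Finset.mem_univ, true_and] at hx hgx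
    by_cases h4 : g x = v
    · rw [h4] at hgx
      exact h2 hgx
    · have h5 := h.ne _ h4
      rcases h.eq _ h4 with ⟨h6, h7⟩ | ⟨h6, h7⟩
      · rw [Equiv.symm_apply_apply] at h6
        exact h5 (by rw [← h6, ← h7, hx, hgx])
      · rw [Equiv.symm_apply_apply] at h6
        exact h5 (by rw [← h6, ← h7, hx, hgx])

open Classical in
/-- All matching edges except `v` have certificates in the rest. -/
lemma Cov.cert (h : Cov f g v κ μ) (c : C) {z : V} (hz : z ≠ v) :
    Cert f g (Finset.univ.filter (fun x => κ x = c)) (Finset.univ.filter (fun x => μ x = c)) z := by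
  have key : ∀ d, d ≠ c → z ∈ PG.bd f (Finset.univ.filter (fun x => κ x = d)) →
      Cert f g (Finset.univ.filter (fun x => κ x = c)) (Finset.univ.filter (fun x => μ x = c)) z := by
    intro d hd hz
    refine ⟨_, _, ?_, ?_, h.bd d, hz⟩
    · rw [Finset.disjoint_left]
      intro x hx hx'
      simp only [Finset.mem_filter, Finset.mem_univ, true_and] at hx hx'
      exact hd (hx.symm.trans hx')
    · rw [Finset.disjoint_left]
      intro x hx hx'
      simp only [Finset.mem_filter, Finset.mem_univ, true_and] at hx hx'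
      exact hd (hx.symm.trans hx')
  have h1 := h.ne z hz
  by_cases h2 : κ z = c
  · refine key (κ (f.symm z)) (fun h3 => h1 (h3.trans h2.symm)) ?_
    rw [mem_bd]
    simp [h1.symm]
  · refine key (κ z) h2 ?_
    rw [mem_bd]
    simp [h1]

/-- Separation: a colour class without `v` separates the two ends of `v`. -/
lemma Cov.sep (h : Cov f g v κ μ) (hF : Fine f g v κ μ) (hN : NN f g) {c : C} (h1 : κ v ≠ c)
    (h2 : μ v ≠ c) (h3 : ∃ x, κ x = c) : ∃ s : C → Prop, ¬ (s (κ v) ↔ s (μ v)) ∧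
      ∀ x, x ≠ v → κ x ≠ c → κ (f.symm x) ≠ c → (s (κ (f.symm x)) ↔ s (κ x)) := by
  classical
  obtain ⟨z, -, hz⟩ := hN.exists_br (h.alt h1 h2 h3)
  have hzv : z = v := by
    by_contra h4
    exact not_br_of_cert (h.cert c h4) hz
  subst hzv
  obtain ⟨P, Q, hP, hQ, hPQ, hv⟩ := hz
  have hP' : ∀ x, κ x ≠ c → (x ∈ P ↔ f x ∈ P) := fun x hx => hP x (by simpa using hx)
  have hQ' : ∀ x, μ x ≠ c → (x ∈ Q ↔ g x ∈ Q) := fun x hx => hQ x (by simpa using hx)
  have hP2 : ∀ x, κ (f.symm x) ≠ c → (f.symm x ∈ P ↔ x ∈ P) := by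
    intro x hx
    have := hP' _ hx
    rwa [Equiv.apply_symm_apply] at this
  have hQ2 : ∀ x, μ (g.symm x) ≠ c → (g.symm x ∈ Q ↔ x ∈ Q) := by
    intro x hx
    have := hQ' _ hx
    rwa [Equiv.apply_symm_apply] at this
  obtain ⟨k1, k2, k3⟩ := hF (fun x => κ x ≠ c ∧ x ∈ P) (fun x => μ x ≠ c ∧ x ∈ Q)
    (by
      have e1 : κ (f.symm z) ≠ c := by rw [h.vf]; exact h1
      simp only [e1, h1, ne_eq, not_false_eq_true, true_and]
      exact hP2 z e1)
    (by
      have e1 : μ (g.symm z) ≠ c := by rw [h.vg]; exact h2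
      simp only [e1, h2, ne_eq, not_false_eq_true, true_and]
      exact hQ2 z e1)
    (by
      intro x hx
      refine ⟨fun e => ?_, fun e => ?_, fun e => ?_, fun e => ?_⟩
      · rw [← e]
        by_cases e1 : κ (f.symm x) = c
        · simp [e1]
        · rw [hP2 x e1, hPQ x hx]
      · rw [← e, hPQ x hx]
      · rw [← e]
        by_cases e1 : κ (f.symm x) = c
        · simp [e1]
        · rw [hP2 x e1, hPQ x hx, hQ2 x (by rw [← e]; exact e1)]
      · rw [← e]
        by_cases e1 : κ x = c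
        · simp [e1]
        · rw [hPQ x hx, hQ2 x (by rw [← e]; exact e1)])
  refine ⟨fun d => (∃ x, κ x = d ∧ κ x ≠ c ∧ x ∈ P) ∨ ∃ x, μ x = d ∧ μ x ≠ c ∧ x ∈ Q, ?_, ?_⟩
  · have e1 : ((∃ x, κ x = κ z ∧ κ x ≠ c ∧ x ∈ P) ∨ ∃ x, μ x = κ z ∧ μ x ≠ c ∧ x ∈ Q) ↔
        z ∈ P := by
      constructor
      · rintro (⟨x, hx, hx'⟩ | ⟨x, hx, hx'⟩)
        · exact ((k1 x z hx).1 hx').2
        · exact ((k2 z x hx.symm).2 hx').2
      · intro hz
        exact Or.inl ⟨z, rfl, h1, hz⟩
    have e2 : ((∃ x, κ x = μ z ∧ κ x ≠ c ∧ x ∈ P) ∨ ∃ x, μ x = μ z ∧ μ x ≠ c ∧ x ∈ Q) ↔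
        z ∈ Q := by
      constructor
      · rintro (⟨x, hx, hx'⟩ | ⟨x, hx, hx'⟩)
        · exact ((k2 x z hx).1 hx').2
        · exact ((k3 x z hx).1 hx').2
      · intro hz
        exact Or.inr ⟨z, rfl, h2, hz⟩
    dsimp only
    rw [e1, e2]
    exact hv
  · intro x hx e1 e2
    have e3 : ∀ y, κ y ≠ c → (((∃ x, κ x = κ y ∧ κ x ≠ c ∧ x ∈ P) ∨
        ∃ x, μ x = κ y ∧ μ x ≠ c ∧ x ∈ Q) ↔ y ∈ P) := by
      intro y hy
      constructor
      · rintro (⟨x, hx, hx'⟩ | ⟨x, hx, hx'⟩)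
        · exact ((k1 x y hx).1 hx').2
        · exact ((k2 y x hx.symm).2 hx').2
      · intro hz
        exact Or.inl ⟨y, rfl, hy, hz⟩
    dsimp only
    rw [e3 _ e1, e3 _ e2]
    exact hP2 x e2

end cov

end Pool.GOD.PG
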