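import Pool.Agent.LAWB.Bridge
import Pool.Agent.GOD.PGRed

/-!
The frame of the road `T3 + Theorem A` to Q1 of MP_7b7176_co: Q1 follows if in every system of
order at least 7 without common blocks all chains have at most three circuits.  The variant with
`NoPent` uses the pentagon lemma.
-/

set_option autoImplicit false

namespace Pool.GOD

namespace PG

/-- All chains have at most three circuits. -/
def Stmt_T3 : Prop :=
  ∀ (V : Type) [Fintype V] [DecidableEq V] (f g : Equiv.Perm V), Cyc f → Cyc g →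
    Odd (Fintype.card V) → 7 ≤ Fintype.card V → NoBlk f g → NN f g →
    ∀ v N ρ σ, Chn f g v N ρ σ → N ≤ 2

theorem pn5_of_T3 (h : Stmt_T3) : Stmt_PN5 := by
  intro V _ _ f g hf hg hodd hc hB hN
  have h1 := five_of_chn hf hg hodd (by omega) hN (h V f g hf hg hodd hc hB hN)
  omega

/-- No circuit of length 5 contains two matching edges. -/
def NoPent {V : Type} (f g : Equiv.Perm V) : Prop :=
  ∀ x, g x ≠ f (f x) ∧ g (f (f x)) ≠ x ∧ f x ≠ g (g x) ∧ f (g (g x)) ≠ x

/-- The pentagon lemma. -/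
def Stmt_Pent : Prop :=
  ∀ (V : Type) [Fintype V] [DecidableEq V] (f g : Equiv.Perm V), Cyc f → Cyc g →
    Odd (Fintype.card V) → 7 ≤ Fintype.card V → NoBlk f g → NN f g → NoPent f g

/-- All chains have at most three circuits, in systems without pentagons. -/
def Stmt_T3P : Prop :=
  ∀ (V : Type) [Fintype V] [DecidableEq V] (f g : Equiv.Perm V), Cyc f → Cyc g →
    Odd (Fintype.card V) → 7 ≤ Fintype.card V → NoBlk f g → NoPent f g → NN f g →
    ∀ v N ρ σ, Chn f g v N ρ σ → N ≤ 2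

theorem pn5_of_T3P (hP : Stmt_Pent) (h : Stmt_T3P) : Stmt_PN5 :=
  pn5_of_T3 (fun V _ _ f g hf hg hodd hc hB hN =>
    h V f g hf hg hodd hc hB (hP V f g hf hg hodd hc hB hN) hN)

end PG

theorem MGraph.q1_of_T3 (h : PG.Stmt_T3) : MGraph.Q1 := MGraph.q1_of_pn5 (PG.pn5_of_T3 h)

theorem MGraph.q1_of_T3P (hP : PG.Stmt_Pent) (h : PG.Stmt_T3P) : MGraph.Q1 :=
  MGraph.q1_of_pn5 (PG.pn5_of_T3P hP h)

end Pool.GOD
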