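import Pool.Agent.LAWB.Frame

/-!
The pentagon lemma in the compact model of permutation graphs (MP_7b7176_co).
-/

set_option autoImplicit false
set_option linter.unusedSectionVars false

namespace Pool.GOD.PG

variable {V : Type*} [Fintype V] [DecidableEq V] {f g : Equiv.Perm V}

/-! ### Symmetries -/

lemma Alt.swap {A B : Finset V} (h : Alt f g A B) : Alt g f B A := by
  refine ⟨?_, h.indB, h.indA, h.bd.symm⟩
  obtain ⟨a, ha⟩ := h.ne
  have h1 : f a ∈ PG.bd f A := by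
    rw [mem_bd, Equiv.symm_apply_apply]
    intro h2
    exact h.indA a ha (h2.2 ha)
  rw [h.bd, mem_bd] at h1
  by_contra h3
  rw [Finset.not_nonempty_iff_eq_empty] at h3
  rw [h3] at h1
  simp at h1

lemma Cert.swap {A B : Finset V} {z : V} (h : Cert f g A B z) : Cert g f B A z := by
  obtain ⟨X, Y, h1, h2, h3, h4⟩ := h
  exact ⟨Y, X, h2, h1, h3.symm, h3 ▸ h4⟩

lemma NN.swap (h : NN f g) : NN g f := fun A B hR =>
  h B A ⟨hR.1.swap, fun z => (hR.2 z).swap⟩

/-- The edges of the reversed circuit. -/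
def rev (g : Equiv.Perm V) (B : Finset V) : Finset V := Finset.univ.filter (fun x => g x ∈ B)

lemma mem_rev {B : Finset V} {x : V} : x ∈ rev g B ↔ g x ∈ B := by
  simp [rev]

lemma bd_rev (B : Finset V) : PG.bd g (rev g B) = PG.bd g.symm B := by
  ext x
  rw [mem_bd, mem_bd, mem_rev, mem_rev, Equiv.apply_symm_apply, Equiv.symm_symm]
  tauto

lemma NN.inv (h : NN f g) : NN f g.symm := by
  intro A B hR
  refine h A (rev g B) ⟨⟨hR.1.ne, hR.1.indA, ?_, ?_⟩, ?_⟩
  · intro x hx hgx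
    rw [mem_rev] at hx hgx
    apply hR.1.indB _ hgx
    rw [Equiv.symm_apply_apply]
    exact hx
  · rw [bd_rev]
    exact hR.1.bd
  · intro z
    obtain ⟨X, Y, h1, h2, h3, h4⟩ := hR.2 z
    refine ⟨X, rev g Y, h1, ?_, ?_, h4⟩
    · rw [Finset.disjoint_left] at h2 ⊢
      intro x hx hx'
      rw [mem_rev] at hx hx'
      exact h2 hx hx'
    · rw [bd_rev]
      exact h3

/-! ### Sides of a bridge, parity -/

/-- The two sides of the bridge `z` of the rest of `(A, B)`. -/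
structure Sd (f g : Equiv.Perm V) (A B : V → Prop) (z : V) (p q : V → ℕ) : Prop where
  p1 : ∀ x, p x ≤ 1
  q1 : ∀ x, q x ≤ 1
  pf : ∀ x, ¬ A x → p (f x) = p x
  qg : ∀ x, ¬ B x → q (g x) = q x
  pq : ∀ x, x ≠ z → p x = q x
  nz : p z ≠ q z

open Classical in
lemma NN.exists_sd (hN : NN f g) (A B : V → Prop) (a : V)
    (hA : Alt f g (Finset.univ.filter A) (Finset.univ.filter B)) :
    ∃ (z : V) (p q : V → ℕ), (A z ↔ A (f.symm z)) ∧
      Br f g (Finset.univ.filter A) (Finset.univ.filter B) z ∧ Sd f g A B z p q ∧ p a = 1 := by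
  obtain ⟨z, hz, hb⟩ := hN.exists_br hA
  obtain ⟨P, Q, h1, h2, h3, h4⟩ := id hb
  refine ⟨z, fun x => if (x ∈ P ↔ a ∈ P) then 1 else 0,
    fun x => if (x ∈ Q ↔ a ∈ P) then 1 else 0, ?_, hb, ⟨?_, ?_, ?_, ?_, ?_, ?_⟩, ?_⟩
  · rw [mem_bd] at hz
    simpa using hz
  · intro x
    split_ifs <;> omega
  · intro x
    split_ifs <;> omega
  · intro x hx
    have := h1 x (by simpa using hx)
    simp only [this]
  · intro x hx
    have := h2 x (by simpa using hx)
    simp only [this]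
  · intro x hx
    have := h3 x hx
    simp only [this]
  · split_ifs with e1 e2 e2
    · exact absurd (e1.trans e2.symm) h4
    · omega
    · omega
    · exfalso
      apply h4
      tauto
  · simp

/-- Parity: an even subgraph crosses a cut an even number of times. -/
lemma par {X Y : V → Prop} [DecidablePred X] [DecidablePred Y] (hXY : ∀ x, (X x ↔ X (f.symm x)) ↔ (Y x ↔ Y (g.symm x)))
    (p q : V → ℕ) (a : V)
    (ht : ∀ x, x ≠ a → 2 ∣ (if X x then p x + p (f x) else 0) +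
      (if Y x then q x + q (g x) else 0) + (if (X x ↔ X (f.symm x)) then 0 else p x + q x)) :
    2 ∣ (if X a then p a + p (f a) else 0) +
      (if Y a then q a + q (g a) else 0) + (if (X a ↔ X (f.symm a)) then 0 else p a + q a) := by
  have key : ∀ (e : Equiv.Perm V) (X : V → Prop) [DecidablePred X] (p : V → ℕ),
      ∑ x, ((if X x then p x + p (e x) else 0 : ℕ) : ZMod 2) +
        ∑ x, ((if (X x ↔ X (e.symm x)) then 0 else p x : ℕ) : ZMod 2) = 0 := by
    intro e X _ p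
    have h1 : ∑ x, ((if X x then p x + p (e x) else 0 : ℕ) : ZMod 2) =
        ∑ x, ((if X x then p x else 0 : ℕ) : ZMod 2) +
          ∑ x, ((if X (e.symm x) then p x else 0 : ℕ) : ZMod 2) := by
      rw [← Equiv.sum_comp e (fun x => ((if X (e.symm x) then p x else 0 : ℕ) : ZMod 2)),
        ← Finset.sum_add_distrib]
      refine Finset.sum_congr rfl fun x _ => ?_
      rw [Equiv.symm_apply_apply]
      split_ifs <;> simp
    rw [h1, ← Finset.sum_add_distrib, ← Finset.sum_add_distrib]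
    refine Finset.sum_eq_zero fun x _ => ?_
    by_cases a1 : X x <;> by_cases a2 : X (e.symm x) <;>
      simp [a1, a2, CharTwo.add_self_eq_zero]
  have h1 := key f X p
  have h2 := key g Y q
  have h3 : ∑ x, (((if X x then p x + p (f x) else 0) +
      (if Y x then q x + q (g x) else 0) +
      (if (X x ↔ X (f.symm x)) then 0 else p x + q x) : ℕ) : ZMod 2) = 0 := by
    have h4 := congrArg₂ (· + ·) h1 h2
    simp only [add_zero] at h4
    rw [← h4, ← Finset.sum_add_distrib, ← Finset.sum_add_distrib, ← Finset.sum_add_distrib]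
    refine Finset.sum_congr rfl fun x _ => ?_
    have h5 := hXY x
    by_cases a1 : (X x ↔ X (f.symm x))
    · have a2 := h5.1 a1
      rw [if_pos a1, if_pos a1, if_pos a2]
      push_cast
      ring
    · have a2 : ¬ (Y x ↔ Y (g.symm x)) := fun e => a1 (h5.2 e)
      rw [if_neg a1, if_neg a1, if_neg a2]
      push_cast
      ring
  rw [Finset.sum_eq_single a] at h3
  · exact (ZMod.natCast_eq_zero_iff _ 2).1 h3
  · intro x _ hx
    exact (ZMod.natCast_eq_zero_iff _ 2).2 (ht x hx)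
  · intro hx
    exact absurd (Finset.mem_univ a) hx

/-- Connectivity of one colour class. -/
lemma Fine.cls {v : V} {κ μ : V → ℕ} (hF : Fine f g v κ μ) (c : ℕ) (P Q : V → Prop)
    (h0 : κ (f.symm v) = κ v) (h0' : μ (g.symm v) = μ v)
    (h1 : κ v = c → (P (f.symm v) ↔ P v)) (h2 : μ v = c → (Q (g.symm v) ↔ Q v))
    (h3 : ∀ x, x ≠ v → (κ (f.symm x) = c → μ x = c → (P (f.symm x) ↔ Q x)) ∧
      (κ x = c → μ x = c → (P x ↔ Q x)) ∧
      (κ (f.symm x) = c → μ (g.symm x) = c → (P (f.symm x) ↔ Q (g.symm x))) ∧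
      (κ x = c → μ (g.symm x) = c → (P x ↔ Q (g.symm x))))
    {a : V} (ha : κ a = c) (hPa : P a) :
    (∀ x, κ x = c → P x) ∧ ∀ y, μ y = c → Q y := by
  obtain ⟨k1, k2, -⟩ := hF (fun x => κ x = c ∧ P x) (fun x => μ x = c ∧ Q x)
    (by
      rw [h0]
      constructor
      · rintro ⟨e1, e2⟩
        exact ⟨e1, (h1 e1).1 e2⟩
      · rintro ⟨e1, e2⟩
        exact ⟨e1, (h1 e1).2 e2⟩)
    (by
      rw [h0']
      constructor
      · rintro ⟨e1, e2⟩
        exact ⟨e1, (h2 e1).1 e2⟩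
      · rintro ⟨e1, e2⟩
        exact ⟨e1, (h2 e1).2 e2⟩)
    (by
      intro x hx
      obtain ⟨c1, c2, c3, c4⟩ := h3 x hx
      refine ⟨fun e => ?_, fun e => ?_, fun e => ?_, fun e => ?_⟩
      · constructor
        · rintro ⟨e1, e2⟩
          exact ⟨e ▸ e1, (c1 e1 (e ▸ e1)).1 e2⟩
        · rintro ⟨e1, e2⟩
          exact ⟨e ▸ e1, (c1 (e ▸ e1) e1).2 e2⟩
      · constructor
        · rintro ⟨e1, e2⟩
          exact ⟨e ▸ e1, (c2 e1 (e ▸ e1)).1 e2⟩
        · rintro ⟨e1, e2⟩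
          exact ⟨e ▸ e1, (c2 (e ▸ e1) e1).2 e2⟩
      · constructor
        · rintro ⟨e1, e2⟩
          exact ⟨e ▸ e1, (c3 e1 (e ▸ e1)).1 e2⟩
        · rintro ⟨e1, e2⟩
          exact ⟨e ▸ e1, (c3 (e ▸ e1) e1).2 e2⟩
      · constructor
        · rintro ⟨e1, e2⟩
          exact ⟨e ▸ e1, (c4 e1 (e ▸ e1)).1 e2⟩
        · rintro ⟨e1, e2⟩
          exact ⟨e ▸ e1, (c4 (e ▸ e1) e1).2 e2⟩)
  refine ⟨fun x hx => ?_, fun y hy => ?_⟩
  · exact ((k1 a x (ha.trans hx.symm)).1 ⟨ha, hPa⟩).2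
  · exact ((k2 a y (ha.trans hy.symm)).1 ⟨ha, hPa⟩).2

end Pool.GOD.PG
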