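import Pool.Agent.LAWB.Pent1

/-!
The pentagon lemma in the compact model of permutation graphs (MP_7b7176_co), part 2: the three
circuits of the cover at a letter of the pentagon, and the three alternating circuits.
-/

set_option autoImplicit false
set_option linter.unusedSectionVars false
set_option linter.unusedVariables false

namespace Pool.GOD.PG

variable {V : Type*} [Fintype V] [DecidableEq V] {f g : Equiv.Perm V}

/-- A pentagon `v, u, w`: `v → u → w` on the first circuit and `v → w` on the second circuit, with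
the cover of three circuits at `v`. -/
structure Pen (f g : Equiv.Perm V) (v u w : V) (ρ σ : V → ℕ) : Prop where
  fv : f v = u
  fu : f u = w
  gv : g v = w
  uv : u ≠ v
  wu : w ≠ u
  wv : w ≠ v
  sfv : ρ (f.symm v) = 0
  pv : ρ v = 0
  sgv : σ (g.symm v) = 2
  qv : σ v = 2
  pu : ρ u = 1
  pw : ρ w = 2
  qw : σ w = 1
  eq : ∀ x, x ≠ v → (σ (g.symm x) = ρ (f.symm x) ∧ σ x = ρ x) ∨
    (σ (g.symm x) = ρ x ∧ σ x = ρ (f.symm x))
  step : ∀ x, x ≠ v → ρ x = ρ (f.symm x) + 1 ∨ ρ (f.symm x) = ρ x + 1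
  rle : ∀ x, ρ x ≤ 2
  fine : Fine f g v ρ σ

lemma exists_pen (hN : NN f g) (hf : Cyc f) (hg : Cyc g) (hodd : Odd (Fintype.card V))
    (hc : 2 ≤ Fintype.card V) (v : V) (h : g v = f (f v)) :
    ∃ ρ σ, Pen f g v (f v) (f (f v)) ρ σ := by
  obtain ⟨N, ρ, σ, hC, hE⟩ := exists_even_chn hN hf hg hodd hc v
  have uv : f v ≠ v := hf.ne hc v
  have wu : f (f v) ≠ f v := hf.ne hc (f v)
  have wv : f (f v) ≠ v := by
    intro h1
    rw [h1] at h
    exact hg.ne hc v h
  have h1 := hC.step _ uv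
  rw [Equiv.symm_apply_apply, hC.r0] at h1
  have h2 := hC.step _ wv
  rw [Equiv.symm_apply_apply] at h2
  have h3 := hC.cov.eq _ wv
  have h4 : g.symm (f (f v)) = v := by rw [← h, Equiv.symm_apply_apply]
  rw [h4, Equiv.symm_apply_apply, hC.sN] at h3
  have h5 := hC.pos
  obtain ⟨k, hk⟩ := hE
  have h6 : N = 2 := by omega
  subst h6
  exact ⟨ρ, σ, rfl, rfl, h, uv, wu, wv, by rw [hC.cov.vf, hC.r0], hC.r0,
    by rw [hC.cov.vg, hC.sN], hC.sN, by omega, by omega, by omega, hC.cov.eq, hC.step, hC.rle,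
    hC.fine⟩

namespace Pen

variable {v u w : V} {ρ σ : V → ℕ} (h : Pen f g v u w ρ σ)

include h

lemma f1 (x : V) : f.symm x = v ↔ x = u := by
  rw [Equiv.symm_apply_eq, h.fv]

lemma f2 (x : V) : f.symm x = u ↔ x = w := by
  rw [Equiv.symm_apply_eq, h.fu]

lemma g1 (x : V) : g.symm x = v ↔ x = w := by
  rw [Equiv.symm_apply_eq, h.gv]

lemma sfu : f.symm u = v := (h.f1 u).2 rfl

lemma sfw : f.symm w = u := (h.f2 w).2 rfl

lemma sgw : g.symm w = v := (h.g1 w).2 rfl

/-- The letters: `v`, or a letter between two consecutive circuits. -/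
lemma loc (x : V) (hx : x ≠ v) : (ρ (f.symm x) = 0 ∧ ρ x = 1 ∨ ρ (f.symm x) = 1 ∧ ρ x = 0 ∨
    ρ (f.symm x) = 1 ∧ ρ x = 2 ∨ ρ (f.symm x) = 2 ∧ ρ x = 1) ∧
    ((σ (g.symm x) = ρ (f.symm x) ∧ σ x = ρ x) ∨
    (σ (g.symm x) = ρ x ∧ σ x = ρ (f.symm x))) := by
  have h1 := h.step x hx
  have h2 := h.rle x
  have h3 := h.rle (f.symm x)
  have h4 := h.eq x hx
  exact ⟨by omega, h4⟩

/-- The parity condition at a letter for one colour class. -/
lemma hXY (c : ℕ) (x : V) : (ρ x = c ↔ ρ (f.symm x) = c) ↔ (σ x = c ↔ σ (g.symm x) = c) := by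
  by_cases hv : x = v
  · subst hv
    rw [h.pv, h.sfv, h.sgv, h.qv]
    simp
  · have := h.loc x hv
    omega

end Pen

/-! ### The first circuit -/

/-- The `f`-edges of `D_a`. -/
def Aa (ρ : V → ℕ) (v u : V) (x : V) : Prop := (ρ x = 0 ∧ x ≠ v) ∨ x = u

/-- The `g`-edges of `D_a`. -/
def Ba (σ : V → ℕ) (v : V) (x : V) : Prop := σ x = 0 ∨ x = v

open Classical in
lemma Pen.altA {v u w : V} {ρ σ : V → ℕ} (h : Pen f g v u w ρ σ) :
    Alt f g (Finset.univ.filter (Aa ρ v u)) (Finset.univ.filter (Ba σ v)) := by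
  have s1 := h.f1
  have s2 := h.f2
  have s3 := h.g1
  have e1 := h.uv
  have e2 := h.wu
  have e3 := h.wv
  refine ⟨⟨u, by simp [Aa]⟩, ?_, ?_, ?_⟩
  · intro x hx hfx
    simp only [Finset.mem_filter, Finset.mem_univ, true_and] at hx hfx
    unfold Aa at hx hfx
    obtain ⟨y, rfl⟩ : ∃ y, x = f.symm y := ⟨f x, by simp⟩
    rw [Equiv.apply_symm_apply] at hfx
    rw [s2] at hx
    simp only [ne_eq, s1] at hx
    by_cases hv : y = v
    · subst hv
      simp [e1.symm] at hfx
    · by_cases hw : y = w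
      · subst hw
        simp [h.pw, e2] at hfx
      · have := h.loc y hv
        by_cases hu : y = u
        · subst hu
          simp [e2.symm] at hx
        · simp only [hw, hu, hv, or_false, not_false_eq_true, and_true] at hx hfx
          omega
  · intro x hx hfx
    simp only [Finset.mem_filter, Finset.mem_univ, true_and] at hx hfx
    unfold Ba at hx hfx
    obtain ⟨y, rfl⟩ : ∃ y, x = g.symm y := ⟨g x, by simp⟩
    rw [Equiv.apply_symm_apply] at hfx
    rw [s3] at hx
    by_cases hv : y = v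
    · subst hv
      simp [h.sgv, e3.symm] at hx
    · by_cases hw : y = w
      · subst hw
        simp [h.qw, e3] at hfx
      · have := h.loc y hv
        simp only [hw, hv, or_false] at hx hfx
        omega
  · ext x
    rw [mem_bd, mem_bd]
    simp only [Finset.mem_filter, Finset.mem_univ, true_and]
    unfold Aa Ba
    rw [s2, s3]
    simp only [ne_eq, s1]
    by_cases hv : x = v
    · subst hv
      simp [h.pv, h.sfv, h.sgv, h.qv, e1.symm, e3.symm]
    · have h1 := h.loc x hv
      by_cases hu : x = u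
      · subst hu
        rw [h.sfu, h.pv, h.pu] at h1
        simp only [hv, e2.symm, h.pu, h.sfu, h.pv, or_true, or_false, true_iff, iff_true,
          not_true_eq_false, and_false, and_true, not_false_eq_true]
        omega
      · by_cases hw : x = w
        · subst hw
          simp [h.sfw, h.sgw, h.pu, h.pw, h.qw, h.qv, e3, e2]
        · simp only [hv, hu, hw, not_false_eq_true, and_true, or_false]
          omega

/-- The sides of the bridge `m` of the first circuit. -/
structure St1 (f g : Equiv.Perm V) (v u w : V) (ρ σ : V → ℕ) (m : V) (p q : V → ℕ) : Prop where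
  P : Pen f g v u w ρ σ
  mv : m ≠ v
  mu : m ≠ u
  mw : m ≠ w
  mA : ρ (f.symm m) + ρ m = 3
  p1 : ∀ x, p x ≤ 1
  q1 : ∀ x, q x ≤ 1
  pf : ∀ x, x ≠ u → ρ x ≠ 0 → p (f x) = p x
  qg : ∀ x, x ≠ v → σ x ≠ 0 → q (g x) = q x
  pq : ∀ x, x ≠ m → p x = q x
  nz : p m ≠ q m
  av : p v = 1
  au : p u = 1
  aw : p w = 0

lemma Pen.exists_st1 {v u w : V} {ρ σ : V → ℕ} (h : Pen f g v u w ρ σ) (hN : NN f g) :
    ∃ m p q, St1 f g v u w ρ σ m p q := by
  obtain ⟨m, p, q, h1, -, h2, h3⟩ := hN.exists_sd (Aa ρ v u) (Ba σ v) u h.altA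
  have s1 := h.f1
  have s2 := h.f2
  have s3 := h.g1
  have e1 := h.uv
  have e2 := h.wu
  have e3 := h.wv
  have hb := h2.p1
  have hb' := h2.q1
  have mv : m ≠ v := by
    rintro rfl
    simp [Aa, s1, s2, h.sfv, h.pv, e1.symm, e3.symm] at h1
  have mu : m ≠ u := by
    rintro rfl
    simp [Aa, h.sfu, e1.symm] at h1
  have mw : m ≠ w := by
    rintro rfl
    simp [Aa, h.sfw, h.pw, e2] at h1
  have mA : ρ (f.symm m) + ρ m = 3 := by
    have h4 := h.loc m mv
    simp only [Aa, ne_eq, s1, s2, mv, mu, mw, or_false, not_false_eq_true, and_true] at h1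
    omega
  have pf : ∀ x, x ≠ u → ρ x ≠ 0 → p (f x) = p x := by
    intro x hx hx'
    apply h2.pf
    simp only [Aa, hx, or_false]
    omega
  have av : p v = 1 := by
    rw [← h3, ← h.fv]
    exact (h2.pf v (by simp [Aa, e1.symm])).symm
  have qg : ∀ x, x ≠ v → σ x ≠ 0 → q (g x) = q x := by
    intro x hx hx'
    apply h2.qg
    simp only [Ba, hx, or_false]
    omega
  refine ⟨m, p, q, h, mv, mu, mw, mA, hb, hb', pf, qg, h2.pq, h2.nz, av, h3, ?_⟩
  by_contra hw
  have hw1 : p w = 1 := by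
    have := hb w
    omega
  have key := par (X := fun x => ρ x = 1) (Y := fun x => σ x = 1) (h.hXY 1) p q m ?_
  · have k1 : m ≠ u → ρ m = 1 → p (f m) = p m := fun a b => pf m a (by omega)
    have k2 : σ m = 1 → q (g m) = q m := fun b => qg m mv (by omega)
    have k3 := h2.nz
    have k4 := hb m
    have k5 := hb' m
    have k6 := k1 mu
    have k7 := h.loc m mv
    split_ifs at key <;> omega
  · intro x hx
    have k0 := h2.pq x hx
    have k2 : σ x = 1 → q (g x) = q x := fun b => qg x (by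
      rintro rfl
      rw [h.qv] at b
      omega) (by omega)
    by_cases hu : x = u
    · subst hu
      rw [h.fu]
      split_ifs <;> omega
    · have k1 : ρ x = 1 → p (f x) = p x := fun b => pf x hu (by omega)
      split_ifs <;> omega

end Pool.GOD.PG
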