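import Pool.Agent.LAWB.Pent2

/-!
The pentagon lemma in the compact model of permutation graphs (MP_7b7176_co), part 3: the second
and the third circuit.
-/

set_option autoImplicit false
set_option linter.unusedSectionVars false
set_option linter.unusedVariables false

namespace Pool.GOD.PG

variable {V : Type*} [Fintype V] [DecidableEq V] {f g : Equiv.Perm V}
variable {v u w m n : V} {ρ σ p q p' q' : V → ℕ}

namespace St1

variable (h : St1 f g v u w ρ σ m p q)

include h

/-- The sides at a letter other than `v`, `u`, `w`. -/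
lemma lc (x : V) (hv : x ≠ v) (hu : x ≠ u) (hw : x ≠ w) :
    (ρ (f.symm x) = 0 ∧ ρ x = 1 ∨ ρ (f.symm x) = 1 ∧ ρ x = 0 ∨
      ρ (f.symm x) = 1 ∧ ρ x = 2 ∨ ρ (f.symm x) = 2 ∧ ρ x = 1) ∧
    ((σ (g.symm x) = ρ (f.symm x) ∧ σ x = ρ x) ∨
      (σ (g.symm x) = ρ x ∧ σ x = ρ (f.symm x))) ∧
    p x ≤ 1 ∧ q x ≤ 1 ∧ (ρ (f.symm x) ≠ 0 → p x = p (f.symm x)) ∧
    (σ (g.symm x) ≠ 0 → q x = q (g.symm x)) ∧
    (p x = q x ∨ (x = m ∧ p x + q x = 1 ∧ ρ (f.symm x) + ρ x = 3)) := by
  obtain ⟨h1, h2⟩ := h.P.loc x hv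
  refine ⟨h1, h2, h.p1 x, h.q1 x, fun e => ?_, fun e => ?_, ?_⟩
  · have := h.pf (f.symm x) (fun e' => hw ((h.P.f2 x).1 e')) e
    rwa [Equiv.apply_symm_apply] at this
  · have := h.qg (g.symm x) (fun e' => hw ((h.P.g1 x).1 e')) e
    rwa [Equiv.apply_symm_apply] at this
  · by_cases hm : x = m
    · right
      subst hm
      have := h.nz
      have := h.p1 x
      have := h.q1 x
      exact ⟨rfl, by omega, h.mA⟩
    · exact Or.inl (h.pq x hm)

lemma bv : q v = 1 := by
  rw [← h.pq v h.mv.symm]
  exact h.av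

lemma bu : q u = 1 := by
  rw [← h.pq u h.mu.symm]
  exact h.au

lemma bw : q w = 0 := by
  rw [← h.pq w h.mw.symm]
  exact h.aw

lemma bsgv : q (g.symm v) = 1 := by
  have h1 : g.symm v ≠ v := by
    intro e
    have := h.P.gv
    rw [Equiv.symm_apply_eq] at e
    rw [← e] at this
    exact h.P.wv this.symm
  have := h.qg (g.symm v) h1 (by rw [h.P.sgv]; omega)
  rw [Equiv.apply_symm_apply] at this
  rw [← this]
  exact h.bv

end St1

/-! ### The second circuit -/

/-- The `f`-edges of `D_b`. -/
def Ab (ρ p : V → ℕ) (v u : V) (x : V) : Prop :=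
  (ρ x = 1 ∧ x ≠ u ∧ p x = 1) ∨ (ρ x = 2 ∧ p x = 0) ∨ x = v

/-- The `g`-edges of `D_b`. -/
def Bb (σ q : V → ℕ) (v : V) (x : V) : Prop :=
  (σ x = 1 ∧ q x = 1) ∨ (σ x = 2 ∧ x ≠ v ∧ q x = 0) ∨ x = v

open Classical in
lemma St1.altB (h : St1 f g v u w ρ σ m p q) :
    Alt f g (Finset.univ.filter (Ab ρ p v u)) (Finset.univ.filter (Bb σ q v)) := by
  have s1 := h.P.f1
  have s2 := h.P.f2
  have s3 := h.P.g1
  have e1 := h.P.uv
  have e2 := h.P.wu
  have e3 := h.P.wv
  refine ⟨⟨v, by simp [Ab]⟩, ?_, ?_, ?_⟩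
  · intro x hx hfx
    simp only [Finset.mem_filter, Finset.mem_univ, true_and] at hx hfx
    unfold Ab at hx hfx
    obtain ⟨y, rfl⟩ : ∃ y, x = f.symm y := ⟨f x, by simp⟩
    rw [Equiv.apply_symm_apply] at hfx
    simp only [ne_eq, s1, s2] at hx
    by_cases hv : y = v
    · subst hv
      simp [h.P.sfv, e1.symm] at hx
    · by_cases hw : y = w
      · subst hw
        simp [h.P.sfw, h.P.pu, e2] at hx
      · by_cases hu : y = u
        · subst hu
          simp [e1, h.P.pu] at hfx
        · have := h.lc y hv hu hw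
          simp only [hw, hu, hv, or_false, not_false_eq_true, true_and, ne_eq] at hx hfx
          omega
  · intro x hx hfx
    simp only [Finset.mem_filter, Finset.mem_univ, true_and] at hx hfx
    unfold Bb at hx hfx
    obtain ⟨y, rfl⟩ : ∃ y, x = g.symm y := ⟨g x, by simp⟩
    rw [Equiv.apply_symm_apply] at hfx
    simp only [ne_eq, s3] at hx
    by_cases hv : y = v
    · subst hv
      simp [h.P.sgv, e3.symm, h.bsgv] at hx
    · by_cases hw : y = w
      · subst hw
        simp [h.P.qw, e3, h.bw] at hfx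
      · by_cases hu : y = u
        · subst hu
          have h1 := h.P.loc y hv
          rw [h.P.sfu, h.P.pv, h.P.pu] at h1
          simp only [hv, e2.symm, or_false, not_false_eq_true, true_and, ne_eq, h.bu] at hx hfx
          omega
        · have := h.lc y hv hu hw
          simp only [hw, hv, or_false, not_false_eq_true, true_and, ne_eq] at hx hfx
          omega
  · ext x
    rw [mem_bd, mem_bd]
    simp only [Finset.mem_filter, Finset.mem_univ, true_and]
    unfold Ab Bb
    simp only [ne_eq, s1, s2, s3]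
    by_cases hv : x = v
    · subst hv
      simp [h.P.sfv, h.P.sgv, e1.symm, e3.symm, h.bsgv]
    · by_cases hu : x = u
      · subst hu
        have h1 := h.P.loc x hv
        have h2 : σ (g.symm x) ≠ 0 → q x = q (g.symm x) := by
          intro e
          have := h.qg (g.symm x) (fun e' => e2.symm ((s3 x).1 e')) e
          rwa [Equiv.apply_symm_apply] at this
        rw [h.P.sfu, h.P.pv, h.P.pu] at h1
        have h3 := h.bu
        simp only [hv, e2.symm, h.P.pu, h.P.sfu, h.P.pv, or_true, or_false, true_iff, iff_true,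
          not_true_eq_false, and_false, false_and, and_true, not_false_eq_true, false_iff,
          not_false_eq_true, true_and, or_self, iff_false, OfNat.one_ne_ofNat]
        omega
      · by_cases hw : x = w
        · subst hw
          simp [h.P.sfw, h.P.sgw, h.P.pu, h.P.pw, h.P.qw, h.P.qv, e3, e2, h.aw, h.bw, h.bv, h.au,
            e1]
        · obtain ⟨c1, c2, c3, c4, c5, c6, c7⟩ := h.lc x hv hu hw
          simp only [hv, hu, hw, not_false_eq_true, and_true, or_false, true_and]
          rcases c1 with ⟨a1, a2⟩ | ⟨a1, a2⟩ | ⟨a1, a2⟩ | ⟨a1, a2⟩ <;>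
            rcases c2 with ⟨b1, b2⟩ | ⟨b1, b2⟩ <;> omega

/-- The sides of the bridge `n` of the second circuit. -/
structure St2 (f g : Equiv.Perm V) (v u w : V) (ρ σ : V → ℕ) (m : V) (p q : V → ℕ) (n : V)
    (p' q' : V → ℕ) : Prop where
  S : St1 f g v u w ρ σ m p q
  nv : n ≠ v
  nu : n ≠ u
  nw : n ≠ w
  nB : ρ (f.symm n) + ρ n = 1
  pn : p n = 0
  p1 : ∀ x, p' x ≤ 1
  q1 : ∀ x, q' x ≤ 1
  pf : ∀ x, ¬ Ab ρ p v u x → p' (f x) = p' x
  qg : ∀ x, ¬ Bb σ q v x → q' (g x) = q' x
  pq : ∀ x, x ≠ n → p' x = q' x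
  nz : p' n ≠ q' n
  av : p' v = 0
  au : p' u = 1
  aw : p' w = 1
  am : p' m = 0

lemma St1.exists_st2 (h : St1 f g v u w ρ σ m p q) (hN : NN f g) :
    ∃ n p' q', St2 f g v u w ρ σ m p q n p' q' := by
  obtain ⟨n, p', q', h1, -, h2, h3⟩ := hN.exists_sd (Ab ρ p v u) (Bb σ q v) u h.altB
  have s1 := h.P.f1
  have s2 := h.P.f2
  have s3 := h.P.g1
  have e1 := h.P.uv
  have e2 := h.P.wu
  have e3 := h.P.wv
  have hb := h2.p1
  have hb' := h2.q1
  have nv : n ≠ v := by
    rintro rfl
    simp [Ab, s1, s2, h.P.sfv, h.P.pv, e1.symm, e3.symm] at h1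
  have nu : n ≠ u := by
    rintro rfl
    simp [Ab, h.P.sfu, h.P.pu, e1] at h1
  have nw : n ≠ w := by
    rintro rfl
    simp [Ab, h.P.sfw, h.P.pw, h.P.pu, e1, h.aw] at h1
  obtain ⟨c1, c2, c3, c4, c5, c6, c7⟩ := h.lc n nv nu nw
  simp only [Ab, ne_eq, s1, s2, nv, nu, nw, or_false, not_false_eq_true, and_true, true_and] at h1
  have nB : ρ (f.symm n) + ρ n = 1 := by omega
  have pn : p n = 0 := by omega
  have nm : n ≠ m := by
    rintro rfl
    have := h.mA
    omega
  have qu : q' u = 1 := by
    rw [← h2.pq u nu.symm]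
    exact h3
  have aw : p' w = 1 := by
    rw [← h3, ← h.P.fu]
    apply h2.pf
    simp [Ab, h.P.pu, e1]
  have av : p' v = 0 := by
    by_contra hv
    have hv1 : p' v = 1 := by
      have := hb v
      omega
    have key := par (X := fun x => ρ x = 0) (Y := fun x => σ x = 0) (h.P.hXY 0) p' q' n ?_
    · have k1 : ρ n = 0 → p' (f n) = p' n := fun b => h2.pf n (by
        simp only [Ab, nv, or_false]
        omega)
      have k2 : σ n = 0 → q' (g n) = q' n := fun b => h2.qg n (by
        simp only [Bb, nv, or_false]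
        omega)
      have k3 := h2.nz
      have k4 := hb n
      have k5 := hb' n
      split_ifs at key <;> omega
    · intro x hx
      have k0 := h2.pq x hx
      have k2 : σ x = 0 → q' (g x) = q' x := fun b => h2.qg x (by
        have hxv : x ≠ v := by
          rintro rfl
          rw [h.P.qv] at b
          omega
        simp only [Bb, hxv, or_false]
        omega)
      by_cases hxv : x = v
      · subst hxv
        rw [h.P.fv]
        have := h.P.sfv
        have := h.P.pv
        split_ifs <;> omega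
      · have k1 : ρ x = 0 → p' (f x) = p' x := fun b => h2.pf x (by
          simp only [Ab, hxv, or_false]
          omega)
        split_ifs <;> omega
  have qv : q' v = 0 := by
    rw [← h2.pq v nv.symm]
    exact av
  refine ⟨n, p', q', h, nv, nu, nw, nB, pn, hb, hb', h2.pf, h2.qg, h2.pq, h2.nz, av, h3, aw, ?_⟩
  have key := par (X := fun x => ρ x = 2) (Y := fun x => σ x = 2) (h.P.hXY 2)
    (fun x => if p x = 1 then p' x else p' m) (fun x => if q x = 1 then q' x else p' m) v ?_
  · simp only [h.P.pv, h.P.qv, h.P.sfv, h.P.gv, h.bv, h.bw, qv] at key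
    have := hb m
    simp at key
    omega
  · intro x hx
    have k0 := h2.pq x
    have k1 : ρ x = 2 → p (f x) = p x := fun b => h.pf x (by
      rintro rfl
      rw [h.P.pu] at b
      omega) (by omega)
    have k2 : σ x = 2 → q (g x) = q x := fun b => h.qg x hx (by omega)
    have k3 : ρ x = 2 → p x = 1 → p' (f x) = p' x := fun b b' => h2.pf x (by
      simp only [Ab, hx, or_false]
      omega)
    have k4 : σ x = 2 → q x = 1 → q' (g x) = q' x := fun b b' => h2.qg x (by
      simp only [Bb, hx, or_false]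
      omega)
    have d1 : 2 ∣ (if ρ x = 2 then (if p x = 1 then p' x else p' m) +
        (if p (f x) = 1 then p' (f x) else p' m) else 0) := by
      split_ifs <;> omega
    have d2 : 2 ∣ (if σ x = 2 then (if q x = 1 then q' x else p' m) +
        (if q (g x) = 1 then q' (g x) else p' m) else 0) := by
      split_ifs <;> omega
    refine Nat.dvd_add (Nat.dvd_add d1 d2) ?_
    by_cases hxn : x = n
    · rw [hxn, if_pos (by omega)]
      exact Nat.dvd_zero 2
    · have k5 := k0 hxn
      by_cases hxm : x = m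
      · have k6 := h.nz
        have k7 := h.p1 m
        have k8 := h.q1 m
        subst hxm
        split_ifs <;> omega
      · have k6 := h.pq x hxm
        split_ifs <;> omega

end Pool.GOD.PG
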