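import Pool.Agent.LAWB.Pent3

/-!
The pentagon lemma in the compact model of permutation graphs (MP_7b7176_co), part 4: the third
circuit.
-/

set_option autoImplicit false
set_option linter.unusedSectionVars false
set_option linter.unusedVariables false
set_option linter.unusedSimpArgs false

namespace Pool.GOD.PG

variable {V : Type*} [Fintype V] [DecidableEq V] {f g : Equiv.Perm V}
variable {v u w m n : V} {ρ σ p q p' q' p2 q2 : V → ℕ}

namespace St2

variable (h : St2 f g v u w ρ σ m p q n p' q')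

include h

lemma bv : q' v = 0 := by
  rw [← h.pq v h.nv.symm]
  exact h.av

lemma bu : q' u = 1 := by
  rw [← h.pq u h.nu.symm]
  exact h.au

lemma bw : q' w = 1 := by
  rw [← h.pq w h.nw.symm]
  exact h.aw

lemma nm : n ≠ m := by
  rintro rfl
  have h1 := h.nB
  have h2 := h.S.mA
  omega

lemma bm : q' m = 0 := by
  rw [← h.pq m h.nm.symm]
  exact h.am

lemma asfv : p' (f.symm v) = 0 := by
  have h0 := h.S.P.sfv
  have h1 : f.symm v ≠ v := by
    intro e
    exact h.S.P.uv ((h.S.P.f1 v).1 e).symm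
  have h2 := h.pf (f.symm v) (by
    unfold Ab
    simp only [h1, or_false]
    omega)
  rw [Equiv.apply_symm_apply] at h2
  rw [← h2]
  exact h.av

/-- The sides at a letter other than `v`, `u`, `w`. -/
lemma lc (x : V) (hv : x ≠ v) (hu : x ≠ u) (hw : x ≠ w) :
    p' x ≤ 1 ∧ q' x ≤ 1 ∧
    (¬ (ρ (f.symm x) = 1 ∧ p (f.symm x) = 1) → ¬ (ρ (f.symm x) = 2 ∧ p (f.symm x) = 0) →
      p' x = p' (f.symm x)) ∧
    (¬ (σ (g.symm x) = 1 ∧ q (g.symm x) = 1) → ¬ (σ (g.symm x) = 2 ∧ q (g.symm x) = 0) →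
      q' x = q' (g.symm x)) ∧
    (p' x = q' x ∨ (p' x + q' x = 1 ∧ ρ (f.symm x) + ρ x = 1 ∧ p x = 0)) ∧
    (ρ (f.symm x) + ρ x = 3 → p x ≠ q x → p' x = 0 ∧ q' x = 0) := by
  have h1 : f.symm x ≠ v := fun e => hu ((h.S.P.f1 x).1 e)
  have h2 : g.symm x ≠ v := fun e => hw ((h.S.P.g1 x).1 e)
  refine ⟨h.p1 x, h.q1 x, fun e e' => ?_, fun e e' => ?_, ?_, fun e e' => ?_⟩
  · have := h.pf (f.symm x) (by
      unfold Ab
      simp only [h1, or_false]
      omega)
    rwa [Equiv.apply_symm_apply] at this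
  · have := h.qg (g.symm x) (by
      unfold Bb
      simp only [h2, or_false]
      omega)
    rwa [Equiv.apply_symm_apply] at this
  · by_cases hn : x = n
    · right
      subst hn
      have := h.nz
      have := h.p1 x
      have := h.q1 x
      exact ⟨by omega, h.nB, h.pn⟩
    · exact Or.inl (h.pq x hn)
  · have : x = m := by
      by_contra hm
      exact e' (h.S.pq x hm)
    subst this
    exact ⟨h.am, h.bm⟩

end St2

/-! ### The third circuit -/

/-- The `f`-edges of `D_c`. -/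
def Ac (ρ p p' : V → ℕ) (v : V) (x : V) : Prop :=
  (ρ x = 2 ∧ p x = 1) ∨ (ρ x = 1 ∧ p x = 0 ∧ p' x = 0) ∨ (ρ x = 0 ∧ p' x = 1) ∨ x = v

/-- The `g`-edges of `D_c`. -/
def Bc (σ q q' : V → ℕ) (v : V) (x : V) : Prop :=
  (σ x = 2 ∧ x ≠ v ∧ q x = 1) ∨ (σ x = 1 ∧ q x = 0 ∧ q' x = 0) ∨ (σ x = 0 ∧ q' x = 1)

/-- The condition for an edge of the circuit number `r` at a letter with the sides `a`, `b`. -/
def FF (r a b : ℕ) : Prop := (r = 2 ∧ a = 1) ∨ (r = 1 ∧ a = 0 ∧ b = 0) ∨ (r = 0 ∧ b = 1)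

lemma FF_ind {r s a b : ℕ} (h : r = 0 ∧ s = 1 ∨ r = 1 ∧ s = 0 ∨ r = 1 ∧ s = 2 ∨ r = 2 ∧ s = 1)
    (h1 : FF r a b) (h2 : FF s a b) : False := by
  unfold FF at h1 h2
  omega

lemma FF_bd {r s r' s' a b c d : ℕ}
    (h : r = 0 ∧ s = 1 ∨ r = 1 ∧ s = 0 ∨ r = 1 ∧ s = 2 ∨ r = 2 ∧ s = 1)
    (h' : r' = r ∧ s' = s ∨ r' = s ∧ s' = r) (ha : a ≤ 1) (hb : b ≤ 1) (hc : c ≤ 1) (hd : d ≤ 1)
    (h1 : a = c ∨ (a + c = 1 ∧ r + s = 3)) (h2 : b = d ∨ (b + d = 1 ∧ r + s = 1 ∧ a = 0))
    (h3 : r + s = 3 → a ≠ c → b = 0 ∧ d = 0) :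
    ¬ (FF s a b ↔ FF r a b) ↔ ¬ (FF s' c d ↔ FF r' c d) := by
  unfold FF
  have ha' : a = 0 ∨ a = 1 := by omega
  have hb' : b = 0 ∨ b = 1 := by omega
  have hc' : c = 0 ∨ c = 1 := by omega
  have hd' : d = 0 ∨ d = 1 := by omega
  clear ha hb hc hd
  rcases h with ⟨rfl, rfl⟩ | ⟨rfl, rfl⟩ | ⟨rfl, rfl⟩ | ⟨rfl, rfl⟩ <;>
    rcases h' with ⟨rfl, rfl⟩ | ⟨rfl, rfl⟩ <;>
    rcases ha' with rfl | rfl <;> rcases hb' with rfl | rfl <;>
    rcases hc' with rfl | rfl <;> rcases hd' with rfl | rfl <;> simp at h1 h2 h3 ⊢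

lemma FF_tr {r a b a' b' : ℕ} (h5 : r ≠ 0 → a = a')
    (h10 : ¬ (r = 1 ∧ a' = 1) → ¬ (r = 2 ∧ a' = 0) → b = b') (ha : a ≤ 1) :
    FF r a' b' ↔ FF r a b := by
  unfold FF
  by_cases h0 : r = 0
  · subst h0
    have := h10 (by omega) (by omega)
    subst this
    simp
  · have := h5 h0
    subst this
    by_cases h1 : r = 1
    · subst h1
      have ha' : a = 0 ∨ a = 1 := by omega
      rcases ha' with rfl | rfl
      · have := h10 (by omega) (by omega)
        subst this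
        simp
      · simp
    · simp [h0, h1]

lemma Ac_iff {x : V} (hv : x ≠ v) : Ac ρ p p' v x ↔ FF (ρ x) (p x) (p' x) := by
  unfold Ac FF
  simp only [hv, or_false]

lemma Bc_iff {x : V} (hv : x ≠ v) : Bc σ q q' v x ↔ FF (σ x) (q x) (q' x) := by
  unfold Bc FF
  simp only [ne_eq, hv, not_false_eq_true, true_and]

lemma St2.Ac_symm (h : St2 f g v u w ρ σ m p q n p' q') (x : V) (hv : x ≠ v) (hu : x ≠ u)
    (hw : x ≠ w) : Ac ρ p p' v (f.symm x) ↔ FF (ρ (f.symm x)) (p x) (p' x) := by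
  rw [Ac_iff (fun e => hu ((h.S.P.f1 x).1 e))]
  obtain ⟨c1, -, c3, -, c5, -, -⟩ := h.S.lc x hv hu hw
  obtain ⟨c8, -, c10, -, -, -⟩ := h.lc x hv hu hw
  exact FF_tr c5 c10 c3

lemma St2.Bc_symm (h : St2 f g v u w ρ σ m p q n p' q') (x : V) (hv : x ≠ v) (hu : x ≠ u)
    (hw : x ≠ w) : Bc σ q q' v (g.symm x) ↔ FF (σ (g.symm x)) (q x) (q' x) := by
  rw [Bc_iff (fun e => hw ((h.S.P.g1 x).1 e))]
  obtain ⟨c1, c2, -, c4, -, c6, -⟩ := h.S.lc x hv hu hw
  obtain ⟨-, c9, -, c11, -, -⟩ := h.lc x hv hu hw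
  exact FF_tr c6 c11 c4

open Classical in
lemma St2.altC (h : St2 f g v u w ρ σ m p q n p' q') :
    Alt f g (Finset.univ.filter (Ac ρ p p' v)) (Finset.univ.filter (Bc σ q q' v)) := by
  have s1 := h.S.P.f1
  have s2 := h.S.P.f2
  have s3 := h.S.P.g1
  have e1 := h.S.P.uv
  have e2 := h.S.P.wu
  have e3 := h.S.P.wv
  have gu : ∀ (hv : u ≠ v), (σ (g.symm u) = 0 ∧ σ u = 1 ∨ σ (g.symm u) = 1 ∧ σ u = 0) ∧
      (σ (g.symm u) = 1 → q (g.symm u) = 1) ∧ (σ (g.symm u) = 0 → q' (g.symm u) = 1) := by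
    intro hv
    have h1 := h.S.P.loc u hv
    rw [h.S.P.sfu, h.S.P.pv, h.S.P.pu] at h1
    have h2 : g.symm u ≠ v := fun e => e2.symm ((s3 u).1 e)
    refine ⟨by omega, fun e => ?_, fun e => ?_⟩
    · have := h.S.qg (g.symm u) h2 (by omega)
      rw [Equiv.apply_symm_apply] at this
      rw [← this]
      exact h.S.bu
    · have := h.qg (g.symm u) (by
        unfold Bb
        simp only [h2, or_false]
        omega)
      rw [Equiv.apply_symm_apply] at this
      rw [← this]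
      exact h.bu
  refine ⟨⟨v, by simp [Ac]⟩, ?_, ?_, ?_⟩
  · intro x hx hfx
    simp only [Finset.mem_filter, Finset.mem_univ, true_and] at hx hfx
    obtain ⟨y, rfl⟩ : ∃ y, x = f.symm y := ⟨f x, by simp⟩
    rw [Equiv.apply_symm_apply] at hfx
    by_cases hv : y = v
    · subst hv
      unfold Ac at hx
      simp only [s1] at hx
      simp [h.S.P.sfv, e1.symm, h.asfv] at hx
    · by_cases hw : y = w
      · subst hw
        unfold Ac at hx
        simp only [s1] at hx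
        simp [h.S.P.sfw, h.S.P.pu, e2, h.S.au] at hx
      · by_cases hu : y = u
        · subst hu
          unfold Ac at hfx
          simp [e1, h.S.P.pu, h.S.au] at hfx
        · rw [h.Ac_symm y hv hu hw] at hx
          rw [Ac_iff hv] at hfx
          exact FF_ind (h.S.P.loc y hv).1 hx hfx
  · intro x hx hfx
    simp only [Finset.mem_filter, Finset.mem_univ, true_and] at hx hfx
    obtain ⟨y, rfl⟩ : ∃ y, x = g.symm y := ⟨g x, by simp⟩
    rw [Equiv.apply_symm_apply] at hfx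
    by_cases hv : y = v
    · subst hv
      unfold Bc at hfx
      simp [h.S.P.qv] at hfx
    · by_cases hw : y = w
      · subst hw
        unfold Bc at hfx
        simp [h.S.P.qw, e3, h.S.bw, h.bw] at hfx
      · by_cases hu : y = u
        · subst hu
          have h1 := gu hv
          unfold Bc at hx hfx
          simp only [ne_eq, s3] at hx
          simp only [hv, e2.symm, or_false, not_false_eq_true, true_and, ne_eq, h.S.bu, h.bu]
            at hx hfx
          omega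
        · rw [h.Bc_symm y hv hu hw] at hx
          rw [Bc_iff hv] at hfx
          have h1 := h.S.P.loc y hv
          exact FF_ind (by omega) hx hfx
  · ext x
    rw [mem_bd, mem_bd]
    simp only [Finset.mem_filter, Finset.mem_univ, true_and]
    by_cases hv : x = v
    · subst hv
      unfold Ac Bc
      simp only [ne_eq, s1, s2, s3]
      simp [h.S.P.sfv, h.S.P.sgv, e1.symm, e3.symm, h.S.bsgv, h.asfv, h.S.P.qv]
    · by_cases hu : x = u
      · subst hu
        unfold Ac Bc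
        simp only [ne_eq, s1, s2, s3]
        have h1 := gu hv
        have h3 := h.S.bu
        have h4 := h.bu
        simp only [hv, e2.symm, h.S.P.pu, h.S.P.sfu, h.S.P.pv, h.S.au, or_true, or_false, true_iff,
          iff_true, not_true_eq_false, and_false, false_and, and_true, not_false_eq_true,
          false_iff, true_and, or_self, iff_false, OfNat.one_ne_ofNat, one_ne_zero]
        omega
      · by_cases hw : x = w
        · subst hw
          unfold Ac Bc
          simp only [ne_eq, s1, s2, s3]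
          simp [h.S.P.sfw, h.S.P.sgw, h.S.P.pu, h.S.P.pw, h.S.P.qw, h.S.P.qv, e3, e2, h.S.aw,
            h.S.bw, h.S.bv, h.S.au, e1, h.bw, h.aw]
        · obtain ⟨c1, c2, c3, c4, c5, c6, c7⟩ := h.S.lc x hv hu hw
          obtain ⟨c8, c9, c10, c11, c12, c13⟩ := h.lc x hv hu hw
          rw [Ac_iff hv, Bc_iff hv, h.Ac_symm x hv hu hw, h.Bc_symm x hv hu hw]
          exact FF_bd c1 c2 c3 c8 c4 c9 (c7.imp id (fun t => t.2)) c12 c13

end Pool.GOD.PG
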