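import Pool.Agent.LAWB.Pent4

/-!
The pentagon lemma in the compact model of permutation graphs (MP_7b7176_co), part 5: the bridge of
the third circuit.
-/

set_option autoImplicit false
set_option linter.unusedSectionVars false
set_option linter.unusedVariables false
set_option linter.unusedSimpArgs false

namespace Pool.GOD.PG

variable {V : Type*} [Fintype V] [DecidableEq V] {f g : Equiv.Perm V}
variable {v u w m n : V} {ρ σ p q p' q' p2 q2 : V → ℕ}

/-- The `f`-edges of the even subgraph outside of the third circuit. -/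
def Xc (ρ p : V → ℕ) (x : V) : Prop := (ρ x = 1 ∧ p x = 1) ∨ (ρ x = 2 ∧ p x = 0)

lemma Xc_bd {r s r' s' a c : ℕ}
    (h : r = 0 ∧ s = 1 ∨ r = 1 ∧ s = 0 ∨ r = 1 ∧ s = 2 ∨ r = 2 ∧ s = 1)
    (h' : r' = r ∧ s' = s ∨ r' = s ∧ s' = r) (ha : a ≤ 1) (hc : c ≤ 1)
    (h1 : a = c ∨ (a + c = 1 ∧ r + s = 3)) :
    ¬ ((s = 1 ∧ a = 1 ∨ s = 2 ∧ a = 0) ↔ (r = 1 ∧ a = 1 ∨ r = 2 ∧ a = 0)) ↔
      ¬ ((s' = 1 ∧ c = 1 ∨ s' = 2 ∧ c = 0) ↔ (r' = 1 ∧ c = 1 ∨ r' = 2 ∧ c = 0)) := by
  have ha' : a = 0 ∨ a = 1 := by omega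
  have hc' : c = 0 ∨ c = 1 := by omega
  clear ha hc
  rcases h with ⟨rfl, rfl⟩ | ⟨rfl, rfl⟩ | ⟨rfl, rfl⟩ | ⟨rfl, rfl⟩ <;>
    rcases h' with ⟨rfl, rfl⟩ | ⟨rfl, rfl⟩ <;>
    rcases ha' with rfl | rfl <;> rcases hc' with rfl | rfl <;> simp at h1 ⊢

lemma Xc_tr {r a a' : ℕ} (h5 : r ≠ 0 → a = a') :
    (r = 1 ∧ a' = 1 ∨ r = 2 ∧ a' = 0) ↔ (r = 1 ∧ a = 1 ∨ r = 2 ∧ a = 0) := by
  by_cases h0 : r = 0
  · subst h0
    simp
  · rw [h5 h0]

lemma St1.XcBd (h : St1 f g v u w ρ σ m p q) (x : V) :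
    ¬ (Xc ρ p x ↔ Xc ρ p (f.symm x)) ↔ ¬ (Xc σ q x ↔ Xc σ q (g.symm x)) := by
  have s1 := h.P.f1
  have s2 := h.P.f2
  have s3 := h.P.g1
  have e1 := h.P.uv
  have e2 := h.P.wu
  have e3 := h.P.wv
  unfold Xc
  by_cases hv : x = v
  · subst hv
    simp [h.P.sfv, h.P.sgv, h.P.pv, h.P.qv, h.bsgv, h.bv]
  · by_cases hu : x = u
    · subst hu
      have h1 := h.P.loc x hv
      rw [h.P.sfu, h.P.pv, h.P.pu] at h1
      have h2 : σ (g.symm x) ≠ 0 → q x = q (g.symm x) := by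
        intro e
        have := h.qg (g.symm x) (fun e' => e2.symm ((s3 x).1 e')) e
        rwa [Equiv.apply_symm_apply] at this
      have h3 := h.bu
      rw [h.P.sfu, h.P.pu, h.P.pv, h.au, h.av]
      rcases h1.2 with ⟨b1, b2⟩ | ⟨b1, b2⟩
      · rw [b1, b2, h3]
        simp
      · rw [b1, b2, ← h2 (by omega), h3]
        simp
    · by_cases hw : x = w
      · subst hw
        rw [h.P.sfw, h.P.sgw, h.P.pu, h.P.pw, h.P.qw, h.P.qv, h.au, h.aw, h.bw, h.bv]
        simp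
      · obtain ⟨c1, c2, c3, c4, c5, c6, c7⟩ := h.lc x hv hu hw
        rw [Xc_tr c5, Xc_tr c6]
        exact Xc_bd c1 c2 c3 c4 (c7.imp id (fun t => t.2))

/-- The sides of the bridge `w` of the third circuit. -/
structure St3 (f g : Equiv.Perm V) (v u w : V) (ρ σ : V → ℕ) (m : V) (p q : V → ℕ) (n : V)
    (p' q' p2 q2 : V → ℕ) : Prop where
  T : St2 f g v u w ρ σ m p q n p' q'
  p1 : ∀ x, p2 x ≤ 1
  q1 : ∀ x, q2 x ≤ 1
  pf : ∀ x, ¬ Ac ρ p p' v x → p2 (f x) = p2 x
  qg : ∀ x, ¬ Bc σ q q' v x → q2 (g x) = q2 x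
  pq : ∀ x, x ≠ w → p2 x = q2 x
  aw : p2 w = 1
  bw : q2 w = 0

open Classical in
lemma St2.exists_st3 (h : St2 f g v u w ρ σ m p q n p' q') (hN : NN f g) :
    ∃ p2 q2, St3 f g v u w ρ σ m p q n p' q' p2 q2 := by
  obtain ⟨z, p2, q2, h1, hbr, h2, h3⟩ := hN.exists_sd (Ac ρ p p' v) (Bc σ q q' v) w h.altC
  have s1 := h.S.P.f1
  have s2 := h.S.P.f2
  have s3 := h.S.P.g1
  have e1 := h.S.P.uv
  have e2 := h.S.P.wu
  have e3 := h.S.P.wv
  have hX : Xc ρ p z ↔ Xc ρ p (f.symm z) := by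
    by_contra hz
    refine not_br_of_cert ?_ hbr
    refine ⟨Finset.univ.filter (Xc ρ p), Finset.univ.filter (Xc σ q), ?_, ?_, ?_, ?_⟩
    · rw [Finset.disjoint_left]
      intro x hx hx'
      simp only [Finset.mem_filter, Finset.mem_univ, true_and] at hx hx'
      by_cases hv : x = v
      · subst hv
        simp [Xc, h.S.P.pv] at hx
      · rw [Ac_iff hv] at hx'
        unfold Xc at hx
        unfold FF at hx'
        omega
    · rw [Finset.disjoint_left]
      intro x hx hx'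
      simp only [Finset.mem_filter, Finset.mem_univ, true_and] at hx hx'
      by_cases hv : x = v
      · subst hv
        simp [Xc, h.S.P.qv, h.S.bv] at hx
      · rw [Bc_iff hv] at hx'
        unfold Xc at hx
        unfold FF at hx'
        omega
    · ext x
      rw [mem_bd, mem_bd]
      simp only [Finset.mem_filter, Finset.mem_univ, true_and]
      exact h.S.XcBd x
    · rw [mem_bd]
      simp only [Finset.mem_filter, Finset.mem_univ, true_and]
      exact hz
  have zv : z ≠ v := by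
    rintro rfl
    have h4 : Ac ρ p p' z z := Or.inr (Or.inr (Or.inr rfl))
    have h5 := h1.1 h4
    unfold Ac at h5
    rw [s1] at h5
    simp [h.S.P.sfv, h.asfv, e1.symm] at h5
  have zu : z ≠ u := by
    rintro rfl
    have h4 : Ac ρ p p' v (f.symm z) := by
      rw [h.S.P.sfu]
      exact Or.inr (Or.inr (Or.inr rfl))
    have h5 := h1.2 h4
    unfold Ac at h5
    simp [h.S.P.pu, h.S.au, e1] at h5
  have zw : z = w := by
    by_contra zw
    obtain ⟨c1, c2, c3, c4, c5, c6, c7⟩ := h.S.lc z zv zu zw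
    obtain ⟨c8, c9, c10, c11, c12, c13⟩ := h.lc z zv zu zw
    rw [Ac_iff zv, h.Ac_symm z zv zu zw] at h1
    unfold Xc at hX
    rw [Xc_tr c5] at hX
    clear c2 c4 c5 c6 c7 c9 c10 c11 c12 c13
    unfold FF at h1
    have c3' : p z = 0 ∨ p z = 1 := by omega
    have c8' : p' z = 0 ∨ p' z = 1 := by omega
    clear c3 c8
    rcases c1 with ⟨a1, a2⟩ | ⟨a1, a2⟩ | ⟨a1, a2⟩ | ⟨a1, a2⟩ <;> rw [a1, a2] at h1 hX <;>
      rcases c3' with a3 | a3 <;> rw [a3] at h1 hX <;>
      rcases c8' with a4 | a4 <;> rw [a4] at h1 <;> simp at h1 hX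
  subst zw
  refine ⟨p2, q2, h, h2.p1, h2.q1, h2.pf, h2.qg, h2.pq, h3, ?_⟩
  have h4 := h2.nz
  have h5 := h2.q1 z
  omega

namespace St3

variable (h : St3 f g v u w ρ σ m p q n p' q' p2 q2)

include h

lemma au : p2 u = 1 := by
  rw [← h.aw, ← h.T.S.P.fu]
  refine (h.pf u ?_).symm
  unfold Ac
  simp [h.T.S.P.pu, h.T.S.au, h.T.S.P.uv]

lemma bu : q2 u = 1 := by
  rw [← h.pq u h.T.S.P.wu.symm]
  exact h.au

lemma bv : q2 v = 0 := by
  rw [← h.bw, ← h.T.S.P.gv]
  refine (h.qg v ?_).symm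
  unfold Bc
  simp [h.T.S.P.qv]

lemma av : p2 v = 0 := by
  rw [h.pq v h.T.S.P.wv.symm]
  exact h.bv

lemma pf' {x : V} (hv : x ≠ v) (hx : ¬ FF (ρ x) (p x) (p' x)) : p2 (f x) = p2 x :=
  h.pf x (by rwa [Ac_iff hv])

lemma qg' {x : V} (hv : x ≠ v) (hx : ¬ FF (σ x) (q x) (q' x)) : q2 (g x) = q2 x :=
  h.qg x (by rwa [Bc_iff hv])

lemma am : p2 m = 1 := by
  have e1 := h.T.S.P.uv
  have e2 := h.T.S.P.wu
  have e3 := h.T.S.P.wv
  have key := par (X := fun x => ρ x = 1) (Y := fun x => σ x = 1) (h.T.S.P.hXY 1)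
    (fun x => if p x = 1 then p2 x else p2 m) (fun x => if q x = 1 then q2 x else p2 m) u ?_
  · have k1 : σ u = 1 → q2 (g u) = q2 u := fun b => h.qg' e1 (by
      have := h.T.S.bu
      unfold FF
      omega)
    have k2 : σ u = 1 → q (g u) = q u := fun b => h.T.S.qg u e1 (by omega)
    have k3 := h.T.S.bu
    have k4 := h.bu
    have k5 := h.au
    have k6 := h.p1 m
    simp only [h.T.S.P.pu, h.T.S.P.sfu, h.T.S.P.fu, h.T.S.P.pv, h.T.S.au, h.T.S.aw, k3, k4, k5]
      at key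
    by_cases b : σ u = 1
    · rw [k1 b, k2 b, k3, k4] at key
      simp [b] at key
      omega
    · simp [b] at key
      omega
  · intro x hx
    have k1 : ρ x = 1 → p (f x) = p x := fun b => h.T.S.pf x hx (by omega)
    have hvx : ρ x = 1 → x ≠ v := by
      rintro b rfl
      rw [h.T.S.P.pv] at b
      omega
    have hvx' : σ x = 1 → x ≠ v := by
      rintro b rfl
      rw [h.T.S.P.qv] at b
      omega
    have k2 : σ x = 1 → q (g x) = q x := fun b => h.T.S.qg x (hvx' b) (by omega)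
    have k3 : ρ x = 1 → p x = 1 → p2 (f x) = p2 x := fun b b' => h.pf' (hvx b) (by
      unfold FF
      omega)
    have k4 : σ x = 1 → q x = 1 → q2 (g x) = q2 x := fun b b' => h.qg' (hvx' b) (by
      unfold FF
      omega)
    have d1 : 2 ∣ (if ρ x = 1 then (if p x = 1 then p2 x else p2 m) +
        (if p (f x) = 1 then p2 (f x) else p2 m) else 0) := by
      split_ifs <;> omega
    have d2 : 2 ∣ (if σ x = 1 then (if q x = 1 then q2 x else p2 m) +
        (if q (g x) = 1 then q2 (g x) else p2 m) else 0) := by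
      split_ifs <;> omega
    refine Nat.dvd_add (Nat.dvd_add d1 d2) ?_
    by_cases hxw : x = w
    · subst hxw
      have := h.T.S.aw
      have := h.T.S.bw
      split_ifs <;> omega
    · have k5 := h.pq x hxw
      by_cases hxm : x = m
      · have k6 := h.T.S.nz
        have k7 := h.T.S.p1 m
        have k8 := h.T.S.q1 m
        subst hxm
        split_ifs <;> omega
      · have k6 := h.T.S.pq x hxm
        split_ifs <;> omega

lemma an : p2 n = 0 := by
  have e1 := h.T.S.P.uv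
  have e2 := h.T.S.P.wu
  have e3 := h.T.S.P.wv
  have key := par (X := fun x => ρ x = 0) (Y := fun x => σ x = 0) (h.T.S.P.hXY 0)
    (fun x => if p' x = 1 then p2 n else p2 x) (fun x => if q' x = 1 then p2 n else q2 x) v ?_
  · have k6 := h.p1 n
    simp only [h.T.S.P.pv, h.T.S.P.sfv, h.T.S.P.fv, h.T.S.P.qv, h.T.av, h.T.au, h.av] at key
    simp at key
    omega
  · intro x hx
    have k1 : ρ x = 0 → p' (f x) = p' x := fun b => h.T.pf x (by
      unfold Ab
      simp only [hx, or_false]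
      omega)
    have k2 : σ x = 0 → q' (g x) = q' x := fun b => h.T.qg x (by
      unfold Bb
      simp only [hx, or_false]
      omega)
    have b1 := h.T.p1 x
    have b2 := h.T.q1 x
    have k3 : ρ x = 0 → p' x ≠ 1 → p2 (f x) = p2 x := fun b b' => h.pf' hx (by
      unfold FF
      omega)
    have k4 : σ x = 0 → q' x ≠ 1 → q2 (g x) = q2 x := fun b b' => h.qg' hx (by
      unfold FF
      omega)
    have d1 : 2 ∣ (if ρ x = 0 then (if p' x = 1 then p2 n else p2 x) +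
        (if p' (f x) = 1 then p2 n else p2 (f x)) else 0) := by
      split_ifs <;> omega
    have d2 : 2 ∣ (if σ x = 0 then (if q' x = 1 then p2 n else q2 x) +
        (if q' (g x) = 1 then p2 n else q2 (g x)) else 0) := by
      split_ifs <;> omega
    refine Nat.dvd_add (Nat.dvd_add d1 d2) ?_
    by_cases hxw : x = w
    · subst hxw
      rw [h.T.S.P.pw, h.T.S.P.sfw, h.T.S.P.pu]
      simp
    · have k5 := h.pq x hxw
      by_cases hxn : x = n
      · have k6 := h.T.nz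
        subst hxn
        split_ifs <;> omega
      · have k6 := h.T.pq x hxn
        split_ifs <;> omega

end St3

end Pool.GOD.PG
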