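import Pool.Agent.LAWB.Pent5

/-!
The pentagon lemma in the compact model of permutation graphs (MP_7b7176_co), part 6: end of the
proof.
-/

set_option autoImplicit false
set_option linter.unusedSectionVars false
set_option linter.unusedVariables false
set_option linter.unusedSimpArgs false

namespace Pool.GOD.PG

variable {V : Type*} [Fintype V] [DecidableEq V] {f g : Equiv.Perm V}
variable {v u w m n : V} {ρ σ p q p' q' p2 q2 : V → ℕ}

namespace St3

variable (h : St3 f g v u w ρ σ m p q n p' q' p2 q2)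

include h

lemma bm : q2 m = 1 := by
  rw [← h.pq m h.T.S.mw]
  exact h.am

lemma bn : q2 n = 0 := by
  rw [← h.pq n h.T.nw]
  exact h.an

/-- Transfer of the sides to the preceding `f`-edge. -/
lemma tf {x : V} (hu : x ≠ u) (hx : ¬ FF (ρ (f.symm x)) (p (f.symm x)) (p' (f.symm x))) :
    p2 x = p2 (f.symm x) := by
  have := h.pf' (x := f.symm x) (fun e => hu ((h.T.S.P.f1 x).1 e)) hx
  rwa [Equiv.apply_symm_apply] at this

lemma tg {x : V} (hw : x ≠ w) (hx : ¬ FF (σ (g.symm x)) (q (g.symm x)) (q' (g.symm x))) :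
    q2 x = q2 (g.symm x) := by
  have := h.qg' (x := g.symm x) (fun e => hw ((h.T.S.P.g1 x).1 e)) hx
  rwa [Equiv.apply_symm_apply] at this

lemma tp1 {x : V} (hw : x ≠ w) (hx : ρ (f.symm x) ≠ 0) : p x = p (f.symm x) := by
  have := h.T.S.pf (f.symm x) (fun e => hw ((h.T.S.P.f2 x).1 e)) hx
  rwa [Equiv.apply_symm_apply] at this

lemma tq1 {x : V} (hw : x ≠ w) (hx : σ (g.symm x) ≠ 0) : q x = q (g.symm x) := by
  have := h.T.S.qg (g.symm x) (fun e => hw ((h.T.S.P.g1 x).1 e)) hx
  rwa [Equiv.apply_symm_apply] at this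

lemma tp2 {x : V} (hu : x ≠ u) (h1 : ¬ (ρ (f.symm x) = 1 ∧ p (f.symm x) = 1))
    (h2 : ¬ (ρ (f.symm x) = 2 ∧ p (f.symm x) = 0)) : p' x = p' (f.symm x) := by
  have := h.T.pf (f.symm x) (by
    unfold Ab
    have : f.symm x ≠ v := fun e => hu ((h.T.S.P.f1 x).1 e)
    simp only [this, or_false]
    omega)
  rwa [Equiv.apply_symm_apply] at this

lemma tq2 {x : V} (hw : x ≠ w) (h1 : ¬ (σ (g.symm x) = 1 ∧ q (g.symm x) = 1))
    (h2 : ¬ (σ (g.symm x) = 2 ∧ q (g.symm x) = 0)) : q' x = q' (g.symm x) := by
  have := h.T.qg (g.symm x) (by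
    unfold Bb
    have : g.symm x ≠ v := fun e => hw ((h.T.S.P.g1 x).1 e)
    simp only [this, or_false]
    omega)
  rwa [Equiv.apply_symm_apply] at this

lemma C1 : (∀ x, ρ x = 1 → p x = 1 → p2 x = 1) ∧ ∀ y, σ y = 1 → q y = 1 → q2 y = 1 := by
  have P := h.T.S.P
  refine P.fine.cls 1 (fun x => p x = 1 → p2 x = 1) (fun y => q y = 1 → q2 y = 1)
    (by rw [P.sfv, P.pv]) (by rw [P.sgv, P.qv]) (fun e => ?_) (fun e => ?_) (fun x hx => ?_)
    P.pu (fun _ => h.au)
  · rw [P.pv] at e
    omega
  · rw [P.qv] at e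
    omega
  · by_cases hw : x = w
    · subst hw
      rw [P.sfw, P.sgw, P.pw, P.qw, P.qv, h.T.S.bw]
      have := h.au
      refine ⟨fun _ _ => ?_, fun e => ?_, fun _ e => ?_, fun _ e => ?_⟩ <;> omega
    · have E1 : ρ (f.symm x) = 1 → (p x = p (f.symm x) ∧
          (p (f.symm x) = 1 → p2 x = p2 (f.symm x))) := by
        intro e
        have hu : x ≠ u := by
          rintro rfl
          rw [P.sfu, P.pv] at e
          omega
        refine ⟨h.tp1 hw (by omega), fun e' => h.tf hu ?_⟩
        unfold FF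
        omega
      have E2 : σ (g.symm x) = 1 → (q x = q (g.symm x) ∧
          (q (g.symm x) = 1 → q2 x = q2 (g.symm x))) := by
        intro e
        refine ⟨h.tq1 hw (by omega), fun e' => h.tg hw ?_⟩
        unfold FF
        omega
      have k5 := h.pq x hw
      by_cases hm : x = m
      · subst hm
        have := h.am
        have := h.bm
        clear k5
        refine ⟨fun a b => ?_, fun a b => ?_, fun a b => ?_, fun a b => ?_⟩ <;> omega
      · have k6 := h.T.S.pq x hm
        refine ⟨fun a b => ?_, fun a b => ?_, fun a b => ?_, fun a b => ?_⟩ <;> omega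

lemma C2 : (∀ x, ρ x = 2 → p x = 0 → p2 x = 1) ∧ ∀ y, σ y = 2 → q y = 0 → q2 y = 1 := by
  have P := h.T.S.P
  refine P.fine.cls 2 (fun x => p x = 0 → p2 x = 1) (fun y => q y = 0 → q2 y = 1)
    (by rw [P.sfv, P.pv]) (by rw [P.sgv, P.qv]) (fun e => ?_) (fun e => ?_) (fun x hx => ?_)
    P.pw (fun _ => h.aw)
  · rw [P.pv] at e
    omega
  · rw [h.T.S.bsgv, h.T.S.bv]
    omega
  · by_cases hw : x = w
    · subst hw
      rw [P.sfw, P.sgw, P.pw, P.qw, P.qv, P.pu, h.T.S.bv]
      have := h.aw
      refine ⟨fun e => ?_, fun _ e => ?_, fun e => ?_, fun _ e => ?_⟩ <;> omega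
    · have E1 : ρ (f.symm x) = 2 → (p x = p (f.symm x) ∧
          (p (f.symm x) = 0 → p2 x = p2 (f.symm x))) := by
        intro e
        have hu : x ≠ u := by
          rintro rfl
          rw [P.sfu, P.pv] at e
          omega
        refine ⟨h.tp1 hw (by omega), fun e' => h.tf hu ?_⟩
        unfold FF
        omega
      have E2 : σ (g.symm x) = 2 → (q x = q (g.symm x) ∧
          (q (g.symm x) = 0 → q2 x = q2 (g.symm x))) := by
        intro e
        refine ⟨h.tq1 hw (by omega), fun e' => h.tg hw ?_⟩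
        unfold FF
        omega
      have k5 := h.pq x hw
      by_cases hm : x = m
      · subst hm
        have := h.am
        have := h.bm
        clear k5
        refine ⟨fun a b => ?_, fun a b => ?_, fun a b => ?_, fun a b => ?_⟩ <;> omega
      · have k6 := h.T.S.pq x hm
        refine ⟨fun a b => ?_, fun a b => ?_, fun a b => ?_, fun a b => ?_⟩ <;> omega

lemma C3 : (∀ x, ρ x = 0 → p' x = 0 → p2 x = 0) ∧ ∀ y, σ y = 0 → q' y = 0 → q2 y = 0 := by
  have P := h.T.S.P
  refine P.fine.cls 0 (fun x => p' x = 0 → p2 x = 0) (fun y => q' y = 0 → q2 y = 0)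
    (by rw [P.sfv, P.pv]) (by rw [P.sgv, P.qv]) (fun e => ?_) (fun e => ?_) (fun x hx => ?_)
    P.pv (fun _ => h.av)
  · have h1 := h.tf (x := v) P.uv.symm (by
      rw [P.sfv, h.T.asfv]
      unfold FF
      omega)
    have h2 := h.av
    omega
  · rw [P.qv] at e
    omega
  · by_cases hw : x = w
    · subst hw
      rw [P.sfw, P.sgw, P.pw, P.qw, P.qv, P.pu]
      refine ⟨fun e => ?_, fun e => ?_, fun e => ?_, fun e => ?_⟩ <;> omega
    · have E2 : σ (g.symm x) = 0 → (q' x = q' (g.symm x) ∧
          (q' (g.symm x) = 0 → q2 x = q2 (g.symm x))) := by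
        intro e
        refine ⟨h.tq2 hw (by omega) (by omega), fun e' => h.tg hw ?_⟩
        unfold FF
        omega
      have k5 := h.pq x hw
      by_cases hu : x = u
      · subst hu
        rw [P.sfu, P.pu]
        have h1 := h.av
        have h2 := h.T.bu
        refine ⟨fun a b => ?_, fun a => ?_, fun a b => ?_, fun a => ?_⟩ <;> omega
      · have E1 : ρ (f.symm x) = 0 → (p' x = p' (f.symm x) ∧
            (p' (f.symm x) = 0 → p2 x = p2 (f.symm x))) := by
          intro e
          refine ⟨h.tp2 hu (by omega) (by omega), fun e' => h.tf hu ?_⟩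
          unfold FF
          omega
        by_cases hn : x = n
        · subst hn
          have := h.an
          have := h.bn
          clear k5
          refine ⟨fun a b => ?_, fun a b => ?_, fun a b => ?_, fun a b => ?_⟩ <;> omega
        · have k6 := h.T.pq x hn
          refine ⟨fun a b => ?_, fun a b => ?_, fun a b => ?_, fun a b => ?_⟩ <;> omega

lemma C4 : (∀ x, ρ x = 1 → p x = 0 → p' x = 1 → p2 x = 0) ∧
    ∀ y, σ y = 1 → q y = 0 → q' y = 1 → q2 y = 0 := by
  have P := h.T.S.P
  refine P.fine.cls 1 (fun x => p x = 0 → p' x = 1 → p2 x = 0)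
    (fun y => q y = 0 → q' y = 1 → q2 y = 0)
    (by rw [P.sfv, P.pv]) (by rw [P.sgv, P.qv]) (fun e => ?_) (fun e => ?_) (fun x hx => ?_)
    P.pu (fun e => ?_)
  · rw [P.pv] at e
    omega
  · rw [P.qv] at e
    omega
  · by_cases hw : x = w
    · subst hw
      rw [P.sfw, P.sgw, P.pw, P.qw, P.qv, h.T.S.bw, h.T.S.au]
      have := h.bw
      refine ⟨fun _ _ => ?_, fun e => ?_, fun _ e => ?_, fun _ e => ?_⟩ <;> omega
    · have E1 : ρ (f.symm x) = 1 → (p x = p (f.symm x) ∧
          (p (f.symm x) = 0 → p' x = p' (f.symm x)) ∧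
          (p (f.symm x) = 0 → p' (f.symm x) = 1 → p2 x = p2 (f.symm x))) := by
        intro e
        have hu : x ≠ u := by
          rintro rfl
          rw [P.sfu, P.pv] at e
          omega
        refine ⟨h.tp1 hw (by omega), fun e' => h.tp2 hu (by omega) (by omega),
          fun e' e'' => h.tf hu ?_⟩
        unfold FF
        omega
      have E2 : σ (g.symm x) = 1 → (q x = q (g.symm x) ∧
          (q (g.symm x) = 0 → q' x = q' (g.symm x)) ∧
          (q (g.symm x) = 0 → q' (g.symm x) = 1 → q2 x = q2 (g.symm x))) := by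
        intro e
        refine ⟨h.tq1 hw (by omega), fun e' => h.tq2 hw (by omega) (by omega),
          fun e' e'' => h.tg hw ?_⟩
        unfold FF
        omega
      have k5 := h.pq x hw
      by_cases hm : x = m
      · subst hm
        have := h.T.am
        have := h.T.bm
        clear k5
        refine ⟨fun a b => ?_, fun a b => ?_, fun a b => ?_, fun a b => ?_⟩ <;> omega
      · have k6 := h.T.S.pq x hm
        by_cases hn : x = n
        · subst hn
          have := h.an
          have := h.bn
          clear k5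
          refine ⟨fun a b => ?_, fun a b => ?_, fun a b => ?_, fun a b => ?_⟩ <;> omega
        · have k7 := h.T.pq x hn
          refine ⟨fun a b => ?_, fun a b => ?_, fun a b => ?_, fun a b => ?_⟩ <;> omega
  · have := h.T.S.au
    omega

/-- No letter of the second kind behind both bridges. -/
lemma lemR {z : V} (hv : z ≠ v) (hu : z ≠ u) (hw : z ≠ w) (hA : ρ (f.symm z) + ρ z = 3)
    (hp : p z = 0) : p' z = 0 := by
  by_contra hc
  have b1 := h.T.p1 z
  have hp1 : p' z = 1 := by omega
  obtain ⟨c1, -⟩ := h.T.S.P.loc z hv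
  have c2 := h.C2.1
  have c4 := h.C4.1
  have t1 : p z = p (f.symm z) := h.tp1 hw (by omega)
  have hcase : (ρ (f.symm z) = 1 ∧ ρ z = 2) ∨ (ρ (f.symm z) = 2 ∧ ρ z = 1) := by omega
  rcases hcase with ⟨a1, a2⟩ | ⟨a1, a2⟩
  · have k1 := c2 z a2 hp
    have k2 : p' z = p' (f.symm z) := h.tp2 hu (by omega) (by omega)
    have k3 := c4 (f.symm z) a1 (by omega) (by omega)
    have k4 : p2 z = p2 (f.symm z) := h.tf hu (by unfold FF; omega)
    omega
  · have k1 := c4 z a2 hp hp1
    have k3 := c2 (f.symm z) a1 (by omega)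
    have k4 : p2 z = p2 (f.symm z) := h.tf hu (by unfold FF; omega)
    omega

/-- No letter of the first kind before both bridges. -/
lemma lemB {z : V} (hv : z ≠ v) (hu : z ≠ u) (hw : z ≠ w) (hB : ρ (f.symm z) + ρ z = 1)
    (hp : p' z = 0) : p z = 0 := by
  by_contra hc
  have b1 := h.T.S.p1 z
  have hp1 : p z = 1 := by omega
  have c1 := h.C1.1
  have c3 := h.C3.1
  have hcase : (ρ (f.symm z) = 0 ∧ ρ z = 1) ∨ (ρ (f.symm z) = 1 ∧ ρ z = 0) := by omega
  rcases hcase with ⟨a1, a2⟩ | ⟨a1, a2⟩
  · have k1 := c1 z a2 hp1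
    have k2 : p' z = p' (f.symm z) := h.tp2 hu (by omega) (by omega)
    have k3 := c3 (f.symm z) a1 (by omega)
    have k4 : p2 z = p2 (f.symm z) := h.tf hu (by unfold FF; omega)
    omega
  · have t1 : p z = p (f.symm z) := h.tp1 hw (by omega)
    have k1 := c3 z a2 hp
    have k3 := c1 (f.symm z) a1 (by omega)
    have k4 : p2 z = p2 (f.symm z) := h.tf hu (by unfold FF; omega)
    omega

lemma allf (hf : Cyc f) (x : V) : (p x = 0 ∧ p' x = 0) ∨ x = v ∨ x = u ∨ x = w := by
  have P := h.T.S.P
  refine hf.induct (p := fun x => (p x = 0 ∧ p' x = 0) ∨ x = v ∨ x = u ∨ x = w) (a := v)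
    (Or.inr (Or.inl rfl)) ?_ x
  intro x hx
  by_cases hv : x = v
  · subst hv
    exact Or.inr (Or.inr (Or.inl P.fv))
  by_cases hu : x = u
  · subst hu
    exact Or.inr (Or.inr (Or.inr P.fu))
  by_cases yv : f x = v
  · exact Or.inr (Or.inl yv)
  by_cases yu : f x = u
  · exact Or.inr (Or.inr (Or.inl yu))
  by_cases yw : f x = w
  · exact Or.inr (Or.inr (Or.inr yw))
  left
  obtain ⟨c1, -⟩ := P.loc (f x) yv
  rw [Equiv.symm_apply_apply] at c1
  have hB := fun a b => h.lemB yv yu yw a b
  have hA := fun a b => h.lemR yv yu yw a b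
  rw [Equiv.symm_apply_apply] at hA hB
  have t1 := h.tp1 (x := f x) yw
  have t2 := h.tp2 (x := f x) yu
  rw [Equiv.symm_apply_apply] at t1 t2
  by_cases hw : x = w
  · subst hw
    have h1 := P.pw
    have h2 := h.T.S.aw
    have h3 := t1 (by omega)
    exact ⟨by omega, hA (by omega) (by omega)⟩
  · have hx' : p x = 0 ∧ p' x = 0 := by tauto
    obtain ⟨k1, k2⟩ := hx'
    have hr : ρ x = 0 ∨ ρ x = 1 ∨ ρ x = 2 := by omega
    rcases hr with hr | hr | hr
    · have h3 := t2 (by omega) (by omega)
      exact ⟨hB (by omega) (by omega), by omega⟩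
    · have h3 := t1 (by omega)
      have h4 := t2 (by omega) (by omega)
      exact ⟨by omega, by omega⟩
    · have h3 := t1 (by omega)
      exact ⟨by omega, hA (by omega) (by omega)⟩

lemma allg (hg : Cyc g) (x : V) : ¬ (q x = 0 ∧ q' x = 0) := by
  have P := h.T.S.P
  intro hx
  have key : q u = 0 ∧ q' u = 0 := by
    refine hg.induct (p := fun x => q x = 0 ∧ q' x = 0) (a := x) hx ?_ u
    clear hx x
    rintro x ⟨h1, h2⟩
    by_cases hv : x = v
    · subst hv
      have := h.T.S.bv
      omega
    by_cases yv : g x = v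
    · have h3 := h.T.S.bsgv
      rw [← yv, Equiv.symm_apply_apply] at h3
      omega
    by_cases yw : g x = w
    · exfalso
      apply hv
      rw [← P.gv] at yw
      exact g.injective yw
    have t1 := h.tq1 (x := g x) yw
    have t2 := h.tq2 (x := g x) yw
    obtain ⟨c1, c2⟩ := P.loc (g x) yv
    rw [Equiv.symm_apply_apply] at t1 t2 c2
    have hr : σ x = 0 ∨ σ x = 1 ∨ σ x = 2 := by omega
    by_cases yu : g x = u
    · exfalso
      rw [yu] at t1 t2 c1 c2
      rw [P.sfu, P.pu, P.pv] at c2
      have h3 := h.T.S.bu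
      have h4 := h.T.bu
      have hr' : σ x = 0 ∨ σ x = 1 := by omega
      rcases hr' with hr | hr
      · have := t2 (by omega) (by omega)
        omega
      · have := t1 (by omega)
        omega
    have hB := fun a b => h.lemB yv yu yw a b
    have hA := fun a b => h.lemR yv yu yw a b
    have d1 := h.T.S.pq (g x)
    have d2 := h.T.pq (g x)
    rcases hr with hr | hr | hr
    · have h3 := t2 (by omega) (by omega)
      have h4 : g x ≠ m := by
        intro e
        have := h.T.S.mA
        rw [← e] at this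
        omega
      refine ⟨?_, by omega⟩
      by_cases hn : g x = n
      · have := h.T.pn
        rw [← hn] at this
        rw [← d1 h4]
        exact this
      · have h5 := d2 hn
        have := hB (by omega) (by omega)
        rw [← d1 h4]
        exact this
    · have h3 := t1 (by omega)
      have h4 := t2 (by omega) (by omega)
      exact ⟨by omega, by omega⟩
    · have h3 := t1 (by omega)
      have h4 : g x ≠ n := by
        intro e
        have := h.T.nB
        rw [← e] at this
        omega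
      refine ⟨by omega, ?_⟩
      by_cases hm : g x = m
      · have := h.T.bm
        rw [← hm] at this
        exact this
      · have h5 := d1 hm
        have := hA (by omega) (by omega)
        rw [← d2 h4]
        exact this
  have := h.T.S.bu
  omega

lemma card_le (hf : Cyc f) (hg : Cyc g) : Fintype.card V ≤ 5 := by
  have hsub : (Finset.univ : Finset V) ⊆ {v, u, w, m, n} := by
    intro x _
    simp only [Finset.mem_insert, Finset.mem_singleton]
    by_contra hc
    push Not at hc
    obtain ⟨h1, h2, h3, h4, h5⟩ := hc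
    have h6 := h.allf hf x
    have h7 : p x = 0 ∧ p' x = 0 := by tauto
    apply h.allg hg x
    rw [← h.T.S.pq x h4, ← h.T.pq x h5]
    exact h7
  have h1 := Finset.card_le_card hsub
  have h2 : ({v, u, w, m, n} : Finset V).card ≤ 5 := Finset.card_le_five
  rw [Finset.card_univ] at h1
  omega

end St3

/-- The pentagon lemma, one orientation. -/
lemma no_pent_aux (hf : Cyc f) (hg : Cyc g) (hodd : Odd (Fintype.card V))
    (hc : 7 ≤ Fintype.card V) (hN : NN f g) (x : V) : g x ≠ f (f x) := by
  intro hx
  obtain ⟨ρ, σ, h⟩ := exists_pen hN hf hg hodd (by omega) x hx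
  obtain ⟨m, p, q, h1⟩ := h.exists_st1 hN
  obtain ⟨n, p', q', h2⟩ := h1.exists_st2 hN
  obtain ⟨p2, q2, h3⟩ := h2.exists_st3 hN
  have := h3.card_le hf hg
  omega

/-- **The pentagon lemma** (helper36, B2): if nothing is removable and there are at least seven
matching edges then no circuit of length 5 contains two matching edges. -/
theorem stmt_pent : Stmt_Pent := by
  intro V _ _ f g hf hg hodd hc _ hN x
  refine ⟨no_pent_aux hf hg hodd hc hN x, ?_, no_pent_aux hg hf hodd hc hN.swap x, ?_⟩
  · intro h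
    refine no_pent_aux hf hg.symm hodd hc hN.inv x ?_
    rw [Equiv.symm_apply_eq]
    exact h.symm
  · intro h
    refine no_pent_aux hg hf.symm hodd hc hN.swap.inv x ?_
    rw [Equiv.symm_apply_eq]
    exact h.symm

end Pool.GOD.PG

namespace Pool.GOD

/-- Q1 follows if all chains in systems without common blocks and without pentagons have at most
three circuits. -/
theorem MGraph.q1_of_T3P' (h : PG.Stmt_T3P) : MGraph.Q1 := MGraph.q1_of_T3P PG.stmt_pent h

end Pool.GOD
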