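import Pool.Agent.LAWB.Chain
import Pool.Agent.LAW.Main

/-!
Positions on the two circuits, the inversion matrix, and the dictionary between covers of `w - 2v`
with colours in `ZMod 2 × ZMod 2` and the structures of `Pool.LAW` (MP_7b7176_co).
-/

set_option autoImplicit false
set_option linter.unusedSectionVars false

namespace Pool.GOD.PG

variable {V : Type*} [Fintype V] [DecidableEq V] {f g : Equiv.Perm V}

/-- `pos` numbers the letters along `f`, starting with `v0`. -/
structure IsPos (f : Equiv.Perm V) (v0 : V) (pos : V → ℕ) : Prop where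
  inj : Function.Injective pos
  step : ∀ x, f x ≠ v0 → pos (f x) = pos x + 1
  last : ∀ x, f x = v0 → ∀ y, pos y ≤ pos x
  first : ∀ y, pos v0 ≤ pos y

lemma Cyc.exists_isPos (hf : Cyc f) (v0 : V) : ∃ pos : V → ℕ, IsPos f v0 pos := by
  classical
  have hex : ∀ x, ∃ i : ℕ, f^[i] v0 = x := by
    intro x
    refine hf.induct (p := fun x => ∃ i : ℕ, f^[i] v0 = x) (a := v0) ⟨0, rfl⟩ ?_ x
    rintro x ⟨i, rfl⟩
    exact ⟨i + 1, Function.iterate_succ_apply' _ _ _⟩
  have hs : ∀ x, f^[Nat.find (hex x)] v0 = x := fun x => Nat.find_spec (hex x)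
  have hm : ∀ x i, f^[i] v0 = x → Nat.find (hex x) ≤ i := fun x i h => Nat.find_min' (hex x) h
  refine ⟨fun x => Nat.find (hex x), ?_, ?_, ?_, ?_⟩
  · intro x y hxy
    dsimp only at hxy
    rw [← hs x, ← hs y, hxy]
  · intro x hx
    have h1 : Nat.find (hex (f x)) ≤ Nat.find (hex x) + 1 := by
      apply hm
      rw [Function.iterate_succ_apply', hs x]
    have h2 : Nat.find (hex (f x)) ≠ 0 := by
      intro h
      have := hs (f x)
      rw [h] at this
      exact hx this.symm
    obtain ⟨k, hk⟩ := Nat.exists_eq_succ_of_ne_zero h2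
    have h3 : Nat.find (hex x) ≤ k := by
      apply hm
      have := hs (f x)
      rw [hk, Nat.succ_eq_add_one, Function.iterate_succ_apply'] at this
      exact f.injective this
    omega
  · intro x hx y
    by_contra hlt
    push Not at hlt
    obtain ⟨d, hd⟩ := Nat.exists_eq_add_of_lt hlt
    have h1 := hs y
    rw [hd] at h1
    have h2 : f^[Nat.find (hex x) + 1] v0 = v0 := by
      rw [Function.iterate_succ_apply', hs x, hx]
    have h3 : Nat.find (hex x) + d + 1 = d + (Nat.find (hex x) + 1) := by omega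
    rw [h3, Function.iterate_add_apply, h2] at h1
    have h4 := hm y d h1
    omega
  · intro y
    have : Nat.find (hex v0) ≤ 0 := hm v0 0 rfl
    omega

variable {W : Type*} [AddCommMonoid W]

/-- Initial sums. -/
def ps (pos : V → ℕ) (F : V → W) (x : V) : W := ∑ y, if pos y ≤ pos x then F y else 0

lemma ps_first {v0 : V} {pos : V → ℕ} (h : IsPos f v0 pos) (F : V → W) : ps pos F v0 = F v0 := by
  unfold ps
  rw [Finset.sum_eq_single v0]
  · simp
  · intro y _ hy
    rw [if_neg]
    intro h1
    exact hy (h.inj (le_antisymm h1 (h.first y)))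
  · intro h1
    exact absurd (Finset.mem_univ _) h1

lemma ps_step {v0 : V} {pos : V → ℕ} (h : IsPos f v0 pos) (F : V → W) (hF : ∑ x, F x = 0)
    (x : V) : ps pos F (f x) = ps pos F x + F (f x) := by
  by_cases hx : f x = v0
  · have h1 : ps pos F x = 0 := by
      unfold ps
      rw [← hF]
      exact Finset.sum_congr rfl (fun y _ => if_pos (h.last x hx y))
    rw [h1, hx, ps_first h, zero_add]
  · unfold ps
    have h1 : ∀ y, (if pos y ≤ pos (f x) then F y else 0) =
        (if pos y ≤ pos x then F y else 0) + if y = f x then F y else 0 := by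
      intro y
      by_cases h2 : y = f x
      · subst h2
        have h3 : ¬ pos (f x) ≤ pos x := by
          rw [h.step x hx]
          omega
        simp [h3]
      · have h3 : pos y ≠ pos (f x) := fun e => h2 (h.inj e)
        rw [h.step x hx] at h3
        rw [h.step x hx]
        have h4 : pos y ≤ pos x + 1 ↔ pos y ≤ pos x := by omega
        simp only [h4, if_neg h2, add_zero]
    rw [Finset.sum_congr rfl (fun y _ => h1 y), Finset.sum_add_distrib, Finset.sum_ite_eq'
      Finset.univ (f x) F, if_pos (Finset.mem_univ _)]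

/-- The inversion matrix. -/
def inv (pos pos' : V → ℕ) (x y : V) : ZMod 2 :=
  (if pos y ≤ pos x then 1 else 0) + if pos' y ≤ pos' x then 1 else 0

lemma inv_symm {pos pos' : V → ℕ} (h : Function.Injective pos) (h' : Function.Injective pos')
    (x y : V) : inv pos pos' x y = inv pos pos' y x := by
  by_cases hxy : x = y
  · rw [hxy]
  · unfold inv
    have key : ∀ p : V → ℕ, Function.Injective p →
        (if p y ≤ p x then (1 : ZMod 2) else 0) = 1 + if p x ≤ p y then 1 else 0 := by
      intro p hp
      have h1 : p x ≠ p y := fun e => hxy (hp e)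
      by_cases h2 : p y ≤ p x
      · rw [if_pos h2, if_neg (by omega), add_zero]
      · rw [if_neg h2, if_pos (by omega)]
        decide
    rw [key pos h, key pos' h']
    have : ∀ a b : ZMod 2, 1 + a + (1 + b) = a + b := by decide
    exact this _ _

lemma inv_sum (pos pos' : V → ℕ) (F : V → ZMod 2 × ZMod 2) (x : V) :
    ∑ y, inv pos pos' x y • F y = ps pos F x + ps pos' F x := by
  unfold inv ps
  rw [← Finset.sum_add_distrib]
  apply Finset.sum_congr rfl
  intro y _
  by_cases h1 : pos y ≤ pos x <;> by_cases h2 : pos' y ≤ pos' x <;> simp [h1, h2, add_smul]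

lemma w2 (a : ZMod 2 × ZMod 2) : a + a = 0 := by
  revert a
  decide

lemma w2_eq {a b : ZMod 2 × ZMod 2} (h : a + b = 0) : a = b := by
  revert a b
  decide

lemma ps_symm {v0 : V} {pos : V → ℕ} (h : IsPos f v0 pos) (F : V → ZMod 2 × ZMod 2)
    (hF : ∑ x, F x = 0) (x : V) : ps pos F (f.symm x) = ps pos F x + F x := by
  have h1 := ps_step h F hF (f.symm x)
  rw [Equiv.apply_symm_apply] at h1
  rw [h1, add_assoc, w2, add_zero]

/-- From structures to covers. -/
lemma cov_of_str {v0 v : V} {pos pos' : V → ℕ} (h : IsPos f v0 pos) (h' : IsPos g v0 pos')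
    {F : V → ZMod 2 × ZMod 2} {c : ZMod 2 × ZMod 2}
    (hS : LAW.Str (inv pos pos') (Finset.univ.erase v) F c) :
    Cov f g v (ps pos F) (fun x => c + ps pos' F x) := by
  obtain ⟨h1, h2, h3⟩ := hS
  have hv : F v = 0 := by
    by_contra h4
    exact absurd ((h1 v).2 h4) (by simp)
  refine ⟨?_, ?_, ?_, ?_⟩
  · rw [ps_symm h F h2, hv, add_zero]
  · rw [ps_symm h' F h2, hv, add_zero]
  · intro x hx e
    rw [ps_symm h F h2] at e
    exact (h1 x).1 (by simp [hx]) (by simpa using e)
  · intro x hx
    have h4 := h3 x (by simp [hx])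
    rw [inv_sum] at h4
    rw [ps_symm h F h2, ps_symm h' F h2]
    generalize ps pos F x = a at *
    generalize ps pos' F x = b at *
    generalize F x = s at *
    clear h3 h1 h2 hv
    revert a b c s
    decide

/-- From covers to structures. -/
lemma str_of_cov {v0 v : V} {pos pos' : V → ℕ} (h : IsPos f v0 pos) (h' : IsPos g v0 pos')
    (hf : Cyc f) (hg : Cyc g) {κ μ : V → ZMod 2 × ZMod 2} (hC : Cov f g v κ μ) :
    LAW.Str (inv pos pos') (Finset.univ.erase v) (fun x => κ (f.symm x) + κ x)
      (κ (f.symm v0) + μ (g.symm v0)) := by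
  set F : V → ZMod 2 × ZMod 2 := fun x => κ (f.symm x) + κ x with hF
  have hsum : ∀ (e : Equiv.Perm V) (τ : V → ZMod 2 × ZMod 2), ∑ x, (τ (e.symm x) + τ x) = 0 := by
    intro e τ
    rw [Finset.sum_add_distrib, Equiv.sum_comp e.symm τ]
    exact w2 _
  have hG : ∀ x, μ (g.symm x) + μ x = F x := by
    intro x
    by_cases hx : x = v
    · subst hx
      rw [hF]
      dsimp only
      rw [hC.vf, hC.vg, w2, w2]
    · rw [hF]
      dsimp only
      rcases hC.eq x hx with ⟨h1, h2⟩ | ⟨h1, h2⟩
      · rw [h1, h2]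
      · rw [h1, h2, add_comm]
  have key : ∀ (e : Equiv.Perm V) (p : V → ℕ) (τ : V → ZMod 2 × ZMod 2), IsPos e v0 p → Cyc e →
      (∀ x, τ (e.symm x) + τ x = F x) → ∀ x, τ x = τ (e.symm v0) + ps p F x := by
    intro e p τ hp he hτ x
    have hFs : ∑ x, F x = 0 := hsum f κ
    refine he.induct (p := fun x => τ x = τ (e.symm v0) + ps p F x) (a := v0) ?_ ?_ x
    · rw [ps_first hp, ← hτ v0, ← add_assoc, w2, zero_add]
    · intro x hx
      rw [ps_step hp F hFs, ← add_assoc, ← hx, ← hτ (e x), Equiv.symm_apply_apply, ← add_assoc, w2,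
        zero_add]
  refine ⟨?_, hsum f κ, ?_⟩
  · intro x
    simp only [Finset.mem_erase, Finset.mem_univ, and_true]
    by_cases hx : x = v
    · subst hx
      simp only [ne_eq, not_true_eq_false, false_iff, not_not]
      rw [hF]
      dsimp only
      rw [hC.vf, w2]
    · simp only [ne_eq, hx, not_false_eq_true, true_iff]
      intro h1
      exact hC.ne x hx (w2_eq h1)
  · intro x hx
    have hx' : x ≠ v := by simpa using hx
    have h1 := key f pos κ h hf (fun x => rfl) x
    have h2 := key g pos' μ h' hg hG x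
    have h3 : κ (f.symm v0) + μ (g.symm v0) + ∑ y, inv pos pos' x y • F y = κ x + μ x := by
      rw [inv_sum, h1, h2]
      abel
    rw [h3]
    rcases hC.eq x hx' with ⟨h4, h5⟩ | ⟨h4, h5⟩
    · left
      rw [h5, w2]
    · right
      rw [h5, hF, add_comm]

end Pool.GOD.PG
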